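import Mathlib

/-!
# Counting multiples close to integers

`near y τ N` is the set of the `d` in `[1, N]` for which `d y` is closer than `τ ≤ 1/2` to an
integer. If two of the vectors `(d, k)` with `|d y - k| < τ` are not proportional, then this set
has at most `12 τ N` elements.
-/

set_option autoImplicit false

namespace Q271.IK

open Finset

/-- The `d` in `[1, N]` with `d y` closer than `τ` to an integer. -/
noncomputable def near (y τ : ℝ) (N : ℕ) : Finset ℕ :=
  open Classical in (Finset.Icc 1 N).filter (fun d => ∃ k : ℤ, |(d : ℝ) * y - k| < τ)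

theorem mem_near {y τ : ℝ} {N d : ℕ} :
    d ∈ near y τ N ↔ (1 ≤ d ∧ d ≤ N) ∧ ∃ k : ℤ, |(d : ℝ) * y - k| < τ := by
  classical
  simp [near, and_assoc]

/-- A set of numbers in `[0, L]` with values `f` in `[0, H]`, in which no two elements are closer
than `w` and at the same time have values closer than `h`, has at most `(L / w + 1) (H / h + 1)`
elements. -/
theorem card_cells (A : Finset ℕ) (f : ℕ → ℝ) (w h L H : ℝ) (hw : 0 < w) (hh : 0 < h)
    (hL0 : 0 ≤ L) (hH0 : 0 ≤ H)
    (hL : ∀ d ∈ A, (d : ℝ) ≤ L) (hf : ∀ d ∈ A, 0 ≤ f d ∧ f d ≤ H)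
    (hsep : ∀ d ∈ A, ∀ e ∈ A, d < e → (e : ℝ) - d < w → |f e - f d| < h → False) :
    (A.card : ℝ) ≤ (L / w + 1) * (H / h + 1) := by
  classical
  have hmap : ∀ d ∈ A, (⌊(d : ℝ) / w⌋₊, ⌊f d / h⌋₊) ∈
      (Finset.range (⌊L / w⌋₊ + 1)) ×ˢ (Finset.range (⌊H / h⌋₊ + 1)) := by
    intro d hd
    simp only [Finset.mem_product, Finset.mem_range, Nat.lt_succ_iff]
    exact ⟨Nat.floor_le_floor (div_le_div_of_nonneg_right (hL d hd) hw.le),
      Nat.floor_le_floor (div_le_div_of_nonneg_right (hf d hd).2 hh.le)⟩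
  have key : ∀ x z : ℝ, 0 ≤ x → 0 ≤ z → ⌊x⌋₊ = ⌊z⌋₊ → |x - z| < 1 := by
    intro x z hx hz hxz
    have h1 := Nat.floor_le hx
    have h2 := Nat.lt_floor_add_one x
    have h3 := Nat.floor_le hz
    have h4 := Nat.lt_floor_add_one z
    rw [hxz] at h1 h2
    rw [abs_lt]
    constructor <;> linarith
  have hinj : Set.InjOn (fun d : ℕ => (⌊(d : ℝ) / w⌋₊, ⌊f d / h⌋₊)) A := by
    have hgen : ∀ d ∈ A, ∀ e ∈ A, (⌊(d : ℝ) / w⌋₊, ⌊f d / h⌋₊) = (⌊(e : ℝ) / w⌋₊, ⌊f e / h⌋₊) →
        ¬ d < e := by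
      intro d hd e he hde hlt
      simp only [Prod.mk.injEq] at hde
      have h1 := key _ _ (by positivity) (by positivity) hde.1
      have h2 := key _ _ (div_nonneg (hf d hd).1 hh.le) (div_nonneg (hf e he).1 hh.le) hde.2
      apply hsep d hd e he hlt
      · rw [← sub_div, abs_div, abs_of_pos hw, div_lt_one hw, abs_sub_comm] at h1
        exact (le_abs_self _).trans_lt h1
      · rw [← sub_div, abs_div, abs_of_pos hh, div_lt_one hh, abs_sub_comm] at h2
        exact h2
    intro d hd e he hde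
    rcases lt_trichotomy d e with h | h | h
    · exact absurd h (hgen d hd e he hde)
    · exact h
    · exact absurd h (hgen e he d hd hde.symm)
  have hcard := Finset.card_le_card_of_injOn _ hmap hinj
  rw [Finset.card_product, Finset.card_range, Finset.card_range] at hcard
  have h1 : ((⌊L / w⌋₊ : ℕ) : ℝ) ≤ L / w := Nat.floor_le (by positivity)
  have h2 : ((⌊H / h⌋₊ : ℕ) : ℝ) ≤ H / h := Nat.floor_le (by positivity)
  calc (A.card : ℝ) ≤ ((⌊L / w⌋₊ + 1) * (⌊H / h⌋₊ + 1) : ℕ) := by exact_mod_cast hcard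
    _ = ((⌊L / w⌋₊ : ℕ) + 1 : ℝ) * ((⌊H / h⌋₊ : ℕ) + 1) := by push_cast; ring
    _ ≤ _ := by
      have : 0 ≤ L / w := by positivity
      apply mul_le_mul <;> first | linarith | positivity

/-- The main count in dimension one. -/
theorem card_near_le (y τ : ℝ) (hτ : 0 < τ) (hτ2 : τ ≤ 1 / 2) (N d₁ d₂ : ℕ) (k₁ k₂ : ℤ)
    (hd₁ : 1 ≤ d₁) (hd₁N : d₁ ≤ N) (hd₂ : 1 ≤ d₂) (hd₂N : d₂ ≤ N)
    (h₁ : |(d₁ : ℝ) * y - k₁| < τ) (h₂ : |(d₂ : ℝ) * y - k₂| < τ)
    (hne : k₁ * d₂ ≠ k₂ * d₁) : ((near y τ N).card : ℝ) ≤ 12 * τ * N := by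
  classical
  have hN1 : (1 : ℝ) ≤ N := by exact_mod_cast hd₁.trans hd₁N
  -- the smallest element
  have hex : ∃ d : ℕ, 1 ≤ d ∧ ∃ k : ℤ, |(d : ℝ) * y - k| < τ := ⟨d₁, hd₁, k₁, h₁⟩
  obtain ⟨s, ⟨hs1, u, hu⟩, hmin⟩ : ∃ s : ℕ, (1 ≤ s ∧ ∃ k : ℤ, |(s : ℝ) * y - k| < τ) ∧
      ∀ d : ℕ, 1 ≤ d → (∃ k : ℤ, |(d : ℝ) * y - k| < τ) → s ≤ d :=
    ⟨Nat.find hex, Nat.find_spec hex, fun d hd hk => Nat.find_min' hex ⟨hd, hk⟩⟩
  have hsN : s ≤ N := (hmin d₁ hd₁ ⟨k₁, h₁⟩).trans hd₁N
  have hs0 : (0 : ℝ) < s := by exact_mod_cast hs1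
  have hs1R : (1 : ℝ) ≤ s := by exact_mod_cast hs1
  have hsNR : (s : ℝ) ≤ N := by exact_mod_cast hsN
  set f : ℕ → ℝ := fun d => (d : ℝ) * y - round ((d : ℝ) * y) + τ with hf
  have hfr : ∀ d ∈ near y τ N, |(d : ℝ) * y - round ((d : ℝ) * y)| < τ := by
    intro d hd
    obtain ⟨_, k, hk⟩ := mem_near.1 hd
    exact (round_le _ k).trans_lt hk
  have hfb : ∀ d ∈ near y τ N, 0 ≤ f d ∧ f d ≤ 2 * τ := by
    intro d hd
    have := abs_lt.1 (hfr d hd)
    simp only [hf]
    constructor <;> linarith [this.1, this.2]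
  have hLb : ∀ d ∈ near y τ N, (d : ℝ) ≤ N := by
    intro d hd
    exact_mod_cast (mem_near.1 hd).1.2
  have hcast : ∀ d e : ℕ, d < e → ((e - d : ℕ) : ℝ) = (e : ℝ) - d := fun d e h =>
    Nat.cast_sub h.le
  by_cases hcase : 1 / (2 * τ) ≤ s
  · have h := card_cells (near y τ N) f s τ N (2 * τ) hs0 hτ (by linarith) (by linarith) hLb hfb ?_
    · refine h.trans ?_
      have e1 : 2 * τ / τ + 1 = 3 := by field_simp; norm_num
      rw [e1]
      have e2 : (1 : ℝ) ≤ N / s := by rw [le_div_iff₀ hs0]; linarith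
      have e3 : (N : ℝ) / s ≤ 2 * τ * N := by
        rw [div_le_iff₀ hs0]
        have : 1 ≤ s * (2 * τ) := by
          rwa [div_le_iff₀ (by positivity)] at hcase
        nlinarith
      nlinarith
    · intro d hd e he hde hw hh
      have h1 : s ≤ e - d := by
        apply hmin (e - d) (by omega)
        refine ⟨round ((e : ℝ) * y) - round ((d : ℝ) * y), ?_⟩
        rw [hcast d e hde]
        push_cast
        have : f e - f d = ((e : ℝ) - d) * y - (round ((e : ℝ) * y) - round ((d : ℝ) * y)) := by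
          simp only [hf]; ring
        rw [← this]; exact hh
      have h2 : (s : ℝ) ≤ (e : ℝ) - d := by
        rw [← hcast d e hde]; exact_mod_cast h1
      linarith
  · push_neg at hcase
    have hsτ : (s : ℝ) * τ < 1 / 2 := by
      rw [lt_div_iff₀ (by positivity)] at hcase
      linarith
    set η : ℝ := (s : ℝ) * y - u with hη
    -- a vector which is not proportional to `(s, u)`
    have hdet : ∀ (d : ℕ) (k : ℤ), ((u * d - k * s : ℤ) : ℝ) =
        s * ((d : ℝ) * y - k) - d * η := by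
      intro d k; rw [hη]; push_cast; ring
    have hnon : ∃ (d : ℕ) (k : ℤ), d ≤ N ∧ |(d : ℝ) * y - k| < τ ∧ u * d - k * s ≠ 0 := by
      by_contra hcon
      push_neg at hcon
      have e1 := hcon d₁ k₁ hd₁N h₁
      have e2 := hcon d₂ k₂ hd₂N h₂
      apply hne
      have hs' : (s : ℤ) ≠ 0 := by positivity
      apply mul_right_cancel₀ hs'
      have e1' : k₁ * s = u * d₁ := by linarith
      have e2' : k₂ * s = u * d₂ := by linarith
      calc k₁ * d₂ * s = (k₁ * s) * d₂ := by ring
        _ = (k₂ * s) * d₁ := by rw [e1', e2']; ring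
        _ = k₂ * d₁ * s := by ring
    obtain ⟨d₀, k₀, hd₀N, hk₀, hne₀⟩ := hnon
    have hNη : 1 / 2 < N * |η| := by
      have h1 : (1 : ℝ) ≤ |((u * d₀ - k₀ * s : ℤ) : ℝ)| := by
        rw [← Int.cast_abs]; exact_mod_cast Int.one_le_abs hne₀
      rw [hdet] at h1
      have h2 : |(s : ℝ) * ((d₀ : ℝ) * y - k₀) - d₀ * η| ≤ s * τ + N * |η| := by
        refine (abs_sub _ _).trans ?_
        rw [abs_mul, abs_mul, abs_of_pos hs0, Nat.abs_cast]
        have : (d₀ : ℝ) ≤ N := by exact_mod_cast hd₀N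
        have a1 := mul_le_mul_of_nonneg_left hk₀.le hs0.le
        have a2 := mul_le_mul_of_nonneg_right this (abs_nonneg η)
        linarith
      linarith
    have hη0 : 0 < |η| := by
      rcases (abs_nonneg η).lt_or_eq with h | h
      · exact h
      · rw [← h] at hNη; norm_num at hNη
    have hητ : |η| < τ := hu
    have hcop : ∀ e : ℕ, ∀ k : ℤ, u * e = k * s → (s : ℤ) ∣ e := by
      intro e k hek
      have hc : Int.gcd u s = 1 := by
        by_contra hg
        set c := Int.gcd u s with hc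
        have hcpos : 0 < c := Int.gcd_pos_of_ne_zero_right _ (by positivity)
        have hc2 : 2 ≤ c := by omega
        obtain ⟨u', hu'⟩ : (c : ℤ) ∣ u := Int.gcd_dvd_left ..
        obtain ⟨s', hs'⟩ : (c : ℤ) ∣ s := Int.gcd_dvd_right ..
        have hs'pos : 0 < s' := by
          have : (0 : ℤ) < s := by positivity
          rw [hs'] at this
          by_contra hle
          push_neg at hle
          have hc0 : (0 : ℤ) ≤ c := by positivity
          have := mul_nonpos_of_nonneg_of_nonpos hc0 hle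
          linarith
        obtain ⟨m, hm⟩ := Int.eq_ofNat_of_zero_le hs'pos.le
        rw [hm] at hs'
        have hcm : (s : ℕ) = c * m := by exact_mod_cast hs'
        have hm1 : 1 ≤ m := by
          rcases Nat.eq_zero_or_pos m with h | h
          · rw [h] at hcm; omega
          · exact h
        have hsm := hmin m hm1 ⟨u', by
          have hcR : (2 : ℝ) ≤ c := by exact_mod_cast hc2
          have e1 : (c : ℝ) * ((m : ℝ) * y - u') = η := by
            rw [hη, hcm, hu']; push_cast; ring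
          have e2 : (c : ℝ) * |(m : ℝ) * y - u'| = |η| := by
            rw [← e1, abs_mul, abs_of_pos (by linarith : (0 : ℝ) < c)]
          have := abs_nonneg ((m : ℝ) * y - u')
          nlinarith⟩
        rw [hcm] at hsm
        nlinarith
      have hdv : (s : ℤ) ∣ u * e := ⟨k, by rw [hek]; ring⟩
      exact (Int.isCoprime_iff_gcd_eq_one.2 (by rwa [Int.gcd_comm])).dvd_of_dvd_mul_left hdv
    have h := card_cells (near y τ N) f (1 / (2 * |η|)) |η| N (2 * τ) (by positivity) hη0
      (by linarith) (by linarith) hLb hfb ?_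
    · refine h.trans ?_
      have e1 : (N : ℝ) / (1 / (2 * |η|)) + 1 ≤ 4 * (N * |η|) := by
        have : (N : ℝ) / (1 / (2 * |η|)) = 2 * (N * |η|) := by field_simp
        rw [this]; linarith
      have e2 : 2 * τ / |η| + 1 ≤ 3 * (τ / |η|) := by
        have : 1 ≤ τ / |η| := by rw [le_div_iff₀ hη0]; linarith
        have h3 : 2 * τ / |η| = 2 * (τ / |η|) := by ring
        rw [h3]; linarith
      calc _ ≤ 4 * (N * |η|) * (3 * (τ / |η|)) := by
            apply mul_le_mul e1 e2 (by positivity) (by positivity)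
        _ = 12 * τ * N := by field_simp; norm_num
    · intro d hd e he hde hw hh
      set K : ℤ := round ((e : ℝ) * y) - round ((d : ℝ) * y) with hK
      have hζ : f e - f d = ((e - d : ℕ) : ℝ) * y - K := by
        rw [hcast d e hde, hK]; push_cast; simp only [hf]; ring
      rw [hζ] at hh
      have hEpos : 0 < ((e - d : ℕ) : ℝ) := by
        have : 0 < e - d := by omega
        exact_mod_cast this
      rw [← hcast d e hde] at hw
      have hdet0 : u * ((e - d : ℕ) : ℤ) - K * s = 0 := by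
        by_contra hne'
        have h1 : (1 : ℝ) ≤ |((u * ((e - d : ℕ) : ℤ) - K * s : ℤ) : ℝ)| := by
          rw [← Int.cast_abs]; exact_mod_cast Int.one_le_abs hne'
        rw [hdet] at h1
        have h2 : |(s : ℝ) * (((e - d : ℕ) : ℝ) * y - K) - ((e - d : ℕ) : ℝ) * η| <
            1 / 2 + 1 / 2 := by
          refine (abs_sub _ _).trans_lt ?_
          rw [abs_mul, abs_mul, abs_of_pos hs0, abs_of_pos hEpos]
          have a1 : (s : ℝ) * |((e - d : ℕ) : ℝ) * y - K| < 1 / 2 := by
            calc _ ≤ (s : ℝ) * |η| := mul_le_mul_of_nonneg_left hh.le hs0.le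
              _ ≤ s * τ := mul_le_mul_of_nonneg_left hητ.le hs0.le
              _ < 1 / 2 := hsτ
          have a2 : ((e - d : ℕ) : ℝ) * |η| ≤ 1 / 2 := by
            have := mul_le_mul_of_nonneg_right hw.le hη0.le
            calc _ ≤ 1 / (2 * |η|) * |η| := this
              _ = 1 / 2 := by field_simp
          linarith
        linarith
      have hdvd := hcop (e - d) K (by linarith)
      obtain ⟨t, ht⟩ := hdvd
      have hs' : (s : ℤ) ≠ 0 := by positivity
      have hKt : K = u * t := by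
        apply mul_right_cancel₀ hs'
        have : K * s = u * ((e - d : ℕ) : ℤ) := by linarith
        rw [this, ht]; ring
      have htne : t ≠ 0 := by
        rintro rfl
        rw [mul_zero] at ht
        have : e - d = 0 := by exact_mod_cast ht
        omega
      have hval : ((e - d : ℕ) : ℝ) * y - K = t * η := by
        have : ((e - d : ℕ) : ℝ) = s * t := by
          have := congrArg (fun z : ℤ => (z : ℝ)) ht
          push_cast at this ⊢
          exact_mod_cast this
        rw [this, hKt, hη]; push_cast; ring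
      rw [hval, abs_mul] at hh
      have ht1 : (1 : ℝ) ≤ |(t : ℝ)| := by
        rw [← Int.cast_abs]; exact_mod_cast Int.one_le_abs htne
      nlinarith

end Q271.IK
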