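import Pool.Agent.Q271.IK.Star

/-!
# The second moment and the conclusion
-/

set_option autoImplicit false

namespace Q271.IK

open MeasureTheory Set Filter Topology
open scoped ENNReal

/-- The second moment inequality for a finite family of sets. -/
theorem second_moment {Ω : Type} [MeasurableSpace Ω] (P : Measure Ω) [IsProbabilityMeasure P]
    (F : Finset ℕ) (B : ℕ → Set Ω) (hB : ∀ q, MeasurableSet (B q)) (U : Set Ω)
    (hU : MeasurableSet U) (hBU : ∀ q ∈ F, B q ⊆ U) :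
    (∑ q ∈ F, P.real (B q)) ^ 2 ≤ P.real U * ∑ q ∈ F, ∑ r ∈ F, P.real (B q ∩ B r) := by
  classical
  set X : Ω → ℝ := fun w => ∑ q ∈ F, (B q).indicator (fun _ => (1 : ℝ)) w with hX
  set A1 := ∑ q ∈ F, P.real (B q) with hA1
  set A2 := ∑ q ∈ F, ∑ r ∈ F, P.real (B q ∩ B r) with hA2
  have hind : ∀ S : Set Ω, MeasurableSet S →
      Integrable (S.indicator (fun _ => (1 : ℝ))) P := fun S hS =>
    (integrable_const (1 : ℝ)).indicator hS
  have hindv : ∀ S : Set Ω, MeasurableSet S →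
      ∫ w, S.indicator (fun _ => (1 : ℝ)) w ∂P = P.real S := fun S hS => by
    rw [integral_indicator_const _ hS]; simp
  have hXU : ∀ w, X w * U.indicator (fun _ => (1 : ℝ)) w = X w := by
    intro w
    by_cases hw : w ∈ U
    · rw [indicator_of_mem hw, mul_one]
    · have : X w = 0 := by
        apply Finset.sum_eq_zero
        intro q hq
        exact indicator_of_notMem (fun h => hw (hBU q hq h)) _
      rw [this, zero_mul]
  have hXi : Integrable X P := integrable_finsetSum _ fun q _ => hind _ (hB q)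
  have hX1 : ∫ w, X w ∂P = A1 := by
    rw [hX, integral_finsetSum _ fun q _ => hind _ (hB q)]
    exact Finset.sum_congr rfl fun q _ => hindv _ (hB q)
  have hXsq : ∀ w, X w ^ 2 = ∑ q ∈ F, ∑ r ∈ F, (B q ∩ B r).indicator (fun _ => (1 : ℝ)) w := by
    intro w
    rw [sq, hX, Finset.sum_mul_sum]
    refine Finset.sum_congr rfl fun q _ => Finset.sum_congr rfl fun r _ => ?_
    by_cases hq : w ∈ B q <;> by_cases hr : w ∈ B r <;> simp [hq, hr]
  have hX2i : Integrable (fun w => X w ^ 2) P := by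
    simp_rw [hXsq]
    exact integrable_finsetSum _ fun q _ => integrable_finsetSum _ fun r _ =>
      hind _ ((hB q).inter (hB r))
  have hX2 : ∫ w, X w ^ 2 ∂P = A2 := by
    simp_rw [hXsq]
    rw [integral_finsetSum _ fun q _ => integrable_finsetSum _ fun r _ =>
      hind _ ((hB q).inter (hB r))]
    refine Finset.sum_congr rfl fun q _ => ?_
    rw [integral_finsetSum _ fun r _ => hind _ ((hB q).inter (hB r))]
    exact Finset.sum_congr rfl fun r _ => hindv _ ((hB q).inter (hB r))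
  have hquad : ∀ t : ℝ, 0 ≤ t ^ 2 * A2 - 2 * t * A1 + P.real U := by
    intro t
    have h1 : 0 ≤ ∫ w, (t * X w - U.indicator (fun _ => (1 : ℝ)) w) ^ 2 ∂P :=
      integral_nonneg fun w => sq_nonneg _
    have h2 : ∀ w, (t * X w - U.indicator (fun _ => (1 : ℝ)) w) ^ 2 =
        (t ^ 2 * X w ^ 2 - 2 * t * X w) + U.indicator (fun _ => (1 : ℝ)) w := by
      intro w
      have h3 : U.indicator (fun _ => (1 : ℝ)) w ^ 2 = U.indicator (fun _ => (1 : ℝ)) w := by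
        by_cases hw : w ∈ U
        · rw [indicator_of_mem hw]; norm_num
        · rw [indicator_of_notMem hw]; norm_num
      have h4 := hXU w
      linear_combination h3 - 2 * t * h4
    simp_rw [h2] at h1
    have i1 : Integrable (fun w => t ^ 2 * X w ^ 2 - 2 * t * X w) P :=
      (hX2i.const_mul _).sub (hXi.const_mul _)
    rw [integral_add i1 (hind U hU),
      integral_sub (hX2i.const_mul _) (hXi.const_mul _), integral_const_mul, integral_const_mul,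
      hX1, hX2, hindv U hU] at h1
    exact h1
  have hA2nn : 0 ≤ A2 := Finset.sum_nonneg fun _ _ => Finset.sum_nonneg fun _ _ =>
    measureReal_nonneg
  rcases hA2nn.lt_or_eq with h | h
  · have := hquad (A1 / A2)
    have e : (A1 / A2) ^ 2 * A2 - 2 * (A1 / A2) * A1 + P.real U = P.real U - A1 ^ 2 / A2 := by
      field_simp; ring
    rw [e] at this
    have h3 : A1 ^ 2 / A2 ≤ P.real U := by linarith
    rwa [div_le_iff₀ h] at h3
  · -- then every `B q` is null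
    have hz : A1 = 0 := by
      apply Finset.sum_eq_zero
      intro q hq
      have h1 : P.real (B q ∩ B q) ≤ A2 := by
        calc P.real (B q ∩ B q) ≤ ∑ r ∈ F, P.real (B q ∩ B r) :=
              Finset.single_le_sum (f := fun r => P.real (B q ∩ B r))
                (fun _ _ => measureReal_nonneg) hq
          _ ≤ A2 := Finset.single_le_sum (f := fun q => ∑ r ∈ F, P.real (B q ∩ B r))
                (fun _ _ => Finset.sum_nonneg fun _ _ => measureReal_nonneg) hq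
      rw [inter_self, ← h] at h1
      exact le_antisymm h1 measureReal_nonneg
    rw [hz, ← h]; simp

section

variable {y : ℝ × ℝ} {ψ : ℕ → ℝ}

open Classical in
/-- The correction term for a pair. -/
noncomputable def corr (y : ℝ × ℝ) (ψ : ℕ → ℝ) (K : ℝ) (Y q r : ℕ) : ℝ :=
  144 * (if r < q ∧ DD ψ q r < K then ψ q ^ 2 * ψ r ^ 2 else 0) +
  4 * (if r < q ∧ red q r < Y then ψ q ^ 2 else 0) +
  9 * (if r < q ∧ CC ψ y.1 q r then mm ψ q r ^ 2 else 0) +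
  9 * (if r < q ∧ CC ψ y.2 q r then mm ψ q r ^ 2 else 0)

theorem corr_nonneg (K : ℝ) (Y q r : ℕ) : 0 ≤ corr y ψ K Y q r := by
  unfold corr
  have h1 : 0 ≤ ψ q ^ 2 * ψ r ^ 2 := by positivity
  have h2 : 0 ≤ ψ q ^ 2 := by positivity
  have h3 : 0 ≤ mm ψ q r ^ 2 := by positivity
  split_ifs <;> linarith

/-- The bound for a pair. -/
theorem pair_bound (h0 : ∀ n, 0 ≤ ψ n) (h1 : ∀ n, ψ n ≤ 1 / 2) (K : ℝ) (hK : 1 ≤ K) (Y : ℕ)
    {q r : ℕ} (hr : 0 < r) (hrq : r < q) (hψ : 0 < ψ q ∧ 0 < ψ r) :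
    PP.real (Es y ψ Y q ∩ EE y ψ r) ≤
      16 * (1 + 1 / (2 * K)) ^ 2 * (ψ q ^ 2 * ψ r ^ 2) + corr y ψ K Y q r := by
  classical
  have hq : 0 < q := by omega
  have hK0 : 0 < K := by linarith
  have hsub : Es y ψ Y q ∩ EE y ψ r ⊆ EE y ψ q ∩ EE y ψ r :=
    inter_subset_inter_left _ (Es_subset y ψ Y q)
  have hle : PP.real (Es y ψ Y q ∩ EE y ψ r) ≤ (4 * ψ q * ψ r + 2 * mm ψ q r) ^ 2 :=
    (measureReal_mono hsub (measure_ne_top _ _)).trans (PP_inter_le h0 h1 hq hr)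
  have hmD := mm_mul_DD ψ hq hr
  have hm0 := mm_nonneg ψ h0 q r
  have hn : (0 : ℝ) < red q r := by exact_mod_cast red_pos hq
  have hD0 : 0 < DD ψ q r := lt_of_lt_of_le (mul_pos hn hψ.2) (le_max_left _ _)
  have hprod : 0 < ψ q * ψ r := mul_pos hψ.1 hψ.2
  have t1 : 0 ≤ ψ q ^ 2 * ψ r ^ 2 := by positivity
  have t2 : 0 ≤ ψ q ^ 2 := by positivity
  have t3 : 0 ≤ mm ψ q r ^ 2 := by positivity
  have tmain : 0 ≤ 16 * (1 + 1 / (2 * K)) ^ 2 * (ψ q ^ 2 * ψ r ^ 2) := by positivity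
  rcases le_or_gt K (DD ψ q r) with hDK | hDK
  · -- large
    have hm : mm ψ q r ≤ ψ q * ψ r / K := by
      rw [le_div_iff₀ hK0, ← hmD]
      exact mul_le_mul_of_nonneg_left hDK hm0
    have h2 : (4 * ψ q * ψ r + 2 * mm ψ q r) ^ 2 ≤ 16 * (1 + 1 / (2 * K)) ^ 2 *
        (ψ q ^ 2 * ψ r ^ 2) := by
      have h3 : 4 * ψ q * ψ r + 2 * mm ψ q r ≤ 4 * (1 + 1 / (2 * K)) * (ψ q * ψ r) := by
        have e : 4 * (1 + 1 / (2 * K)) * (ψ q * ψ r) = 4 * ψ q * ψ r + 2 * (ψ q * ψ r / K) := by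
          field_simp; ring
        rw [e]; linarith
      calc _ ≤ (4 * (1 + 1 / (2 * K)) * (ψ q * ψ r)) ^ 2 :=
            pow_le_pow_left₀ (by nlinarith) h3 2
        _ = _ := by ring
    have := corr_nonneg (y := y) (ψ := ψ) K Y q r
    linarith
  · have c1 : (if r < q ∧ DD ψ q r < K then ψ q ^ 2 * ψ r ^ 2 else 0) = ψ q ^ 2 * ψ r ^ 2 :=
      if_pos ⟨hrq, hDK⟩
    rcases le_or_gt (1 / 4) (DD ψ q r) with hD4 | hD4
    · -- middle
      have hm : mm ψ q r ≤ 4 * (ψ q * ψ r) := by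
        rw [← hmD]
        nlinarith
      have h2 : (4 * ψ q * ψ r + 2 * mm ψ q r) ^ 2 ≤ 144 * (ψ q ^ 2 * ψ r ^ 2) := by
        calc _ ≤ (12 * (ψ q * ψ r)) ^ 2 := pow_le_pow_left₀ (by nlinarith) (by nlinarith) 2
          _ = _ := by ring
      unfold corr
      rw [c1]
      split_ifs <;> linarith
    · rcases lt_or_ge (red q r) Y with hY | hY
      · -- small reduced parts
        have h2 : PP.real (Es y ψ Y q ∩ EE y ψ r) ≤ 4 * ψ q ^ 2 := by
          rw [← PP_EE (y := y) h0 h1 hq]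
          exact measureReal_mono (inter_subset_left.trans (Es_subset y ψ Y q)) (measure_ne_top _ _)
        have c2 : (if r < q ∧ red q r < Y then ψ q ^ 2 else 0) = ψ q ^ 2 := if_pos ⟨hrq, hY⟩
        unfold corr
        rw [c1, c2]
        split_ifs <;> linarith
      · rcases (Es y ψ Y q ∩ EE y ψ r).eq_empty_or_nonempty with hem | hne
        · rw [hem, measureReal_empty]
          have := corr_nonneg (y := y) (ψ := ψ) K Y q r
          linarith
        · have hm : 4 * (ψ q * ψ r) ≤ mm ψ q r := by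
            rw [← hmD]
            nlinarith
          have h2 : (4 * ψ q * ψ r + 2 * mm ψ q r) ^ 2 ≤ 9 * mm ψ q r ^ 2 := by
            calc _ ≤ (3 * mm ψ q r) ^ 2 := pow_le_pow_left₀ (by nlinarith) (by nlinarith) 2
              _ = _ := by ring
          rcases CC_of_not hr hrq hψ hD4 hY hne with hc | hc
          · have c3 : (if r < q ∧ CC ψ y.1 q r then mm ψ q r ^ 2 else 0) = mm ψ q r ^ 2 :=
              if_pos ⟨hrq, hc⟩
            unfold corr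
            rw [c1, c3]
            split_ifs <;> linarith
          · have c3 : (if r < q ∧ CC ψ y.2 q r then mm ψ q r ^ 2 else 0) = mm ψ q r ^ 2 :=
              if_pos ⟨hrq, hc⟩
            unfold corr
            rw [c1, c3]
            split_ifs <;> linarith

theorem sum_corr (h0 : ∀ n, 0 ≤ ψ n) (K : ℝ) (hK : 1 ≤ K) (Y : ℕ) (F : Finset ℕ)
    (hF : ∀ q ∈ F, 0 < q ∧ 0 < ψ q) :
    ∑ q ∈ F, ∑ r ∈ F, corr y ψ K Y q r ≤
      (576 * K ^ 2 + 4 * (Y : ℝ) ^ 2 + 9000) * ∑ q ∈ F, ψ q ^ 2 := by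
  classical
  have a1 := sumB ψ h0 K (by linarith) F hF
  have a2 := sumS ψ Y F hF
  have a3 := sumC ψ h0 y.1 F hF
  have a4 := sumC ψ h0 y.2 F hF
  have e : ∑ q ∈ F, ∑ r ∈ F, corr y ψ K Y q r =
      144 * ∑ q ∈ F, ∑ r ∈ F, (if r < q ∧ DD ψ q r < K then ψ q ^ 2 * ψ r ^ 2 else 0) +
      4 * ∑ q ∈ F, ∑ r ∈ F, (if r < q ∧ red q r < Y then ψ q ^ 2 else 0) +
      9 * ∑ q ∈ F, ∑ r ∈ F, (if r < q ∧ CC ψ y.1 q r then mm ψ q r ^ 2 else 0) +
      9 * ∑ q ∈ F, ∑ r ∈ F, (if r < q ∧ CC ψ y.2 q r then mm ψ q r ^ 2 else 0) := by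
    unfold corr
    simp only [Finset.sum_add_distrib, Finset.mul_sum]
  rw [e]
  linarith

/-- The second moment. -/
theorem moment_two (h0 : ∀ n, 0 ≤ ψ n) (h1 : ∀ n, ψ n ≤ 1 / 2) (K : ℝ) (hK : 1 ≤ K) (Y : ℕ)
    (F : Finset ℕ) (hF : ∀ q ∈ F, 0 < q ∧ 0 < ψ q) :
    ∑ q ∈ F, ∑ r ∈ F, PP.real (Es y ψ Y q ∩ Es y ψ Y r) ≤
      16 * (1 + 1 / (2 * K)) ^ 2 * (∑ q ∈ F, ψ q ^ 2) ^ 2 +
      (2 * (576 * K ^ 2 + 4 * (Y : ℝ) ^ 2 + 9000) + 4) * ∑ q ∈ F, ψ q ^ 2 := by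
  classical
  have hterm : ∀ q ∈ F, ∀ r ∈ F, PP.real (Es y ψ Y q ∩ Es y ψ Y r) ≤
      16 * (1 + 1 / (2 * K)) ^ 2 * (ψ q ^ 2 * ψ r ^ 2) + (if q = r then 4 * ψ q ^ 2 else 0) +
      corr y ψ K Y q r + corr y ψ K Y r q := by
    intro q hq r hr
    have c1 := corr_nonneg (y := y) (ψ := ψ) K Y q r
    have c2 := corr_nonneg (y := y) (ψ := ψ) K Y r q
    have t1 : 0 ≤ 16 * (1 + 1 / (2 * K)) ^ 2 * (ψ q ^ 2 * ψ r ^ 2) := by positivity
    have t2 : 0 ≤ ψ q ^ 2 := by positivity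
    rcases lt_trichotomy r q with h | h | h
    · have := pair_bound (y := y) h0 h1 K hK Y (hF r hr).1 h ⟨(hF q hq).2, (hF r hr).2⟩
      have h2 : PP.real (Es y ψ Y q ∩ Es y ψ Y r) ≤ PP.real (Es y ψ Y q ∩ EE y ψ r) :=
        measureReal_mono (inter_subset_inter_right _ (Es_subset y ψ Y r)) (measure_ne_top _ _)
      split_ifs <;> linarith
    · subst h
      rw [if_pos rfl]
      have h2 : PP.real (Es y ψ Y r ∩ Es y ψ Y r) ≤ 4 * ψ r ^ 2 := by
        rw [← PP_EE (y := y) h0 h1 (hF r hr).1]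
        exact measureReal_mono (inter_subset_left.trans (Es_subset y ψ Y r)) (measure_ne_top _ _)
      linarith
    · have := pair_bound (y := y) h0 h1 K hK Y (hF q hq).1 h ⟨(hF r hr).2, (hF q hq).2⟩
      have h2 : PP.real (Es y ψ Y q ∩ Es y ψ Y r) ≤ PP.real (Es y ψ Y r ∩ EE y ψ q) := by
        rw [inter_comm]
        exact measureReal_mono (inter_subset_inter_right _ (Es_subset y ψ Y q))
          (measure_ne_top _ _)
      have e : ψ r ^ 2 * ψ q ^ 2 = ψ q ^ 2 * ψ r ^ 2 := by ring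
      rw [e] at this
      split_ifs <;> linarith
  have hsc := sum_corr (y := y) h0 K hK Y F hF
  have hsc' : ∑ q ∈ F, ∑ r ∈ F, corr y ψ K Y r q = ∑ q ∈ F, ∑ r ∈ F, corr y ψ K Y q r :=
    Finset.sum_comm
  have hdiag : ∑ q ∈ F, ∑ r ∈ F, (if q = r then 4 * ψ q ^ 2 else 0) = 4 * ∑ q ∈ F, ψ q ^ 2 := by
    rw [Finset.mul_sum]
    refine Finset.sum_congr rfl fun q hq => ?_
    rw [Finset.sum_ite_eq, if_pos hq]
  have hmain : ∑ q ∈ F, ∑ r ∈ F, 16 * (1 + 1 / (2 * K)) ^ 2 * (ψ q ^ 2 * ψ r ^ 2) =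
      16 * (1 + 1 / (2 * K)) ^ 2 * (∑ q ∈ F, ψ q ^ 2) ^ 2 := by
    rw [sq (∑ q ∈ F, ψ q ^ 2), Finset.sum_mul_sum, Finset.mul_sum]
    exact Finset.sum_congr rfl fun q _ => (Finset.mul_sum _ _ _).symm
  calc _ ≤ ∑ q ∈ F, ∑ r ∈ F, (16 * (1 + 1 / (2 * K)) ^ 2 * (ψ q ^ 2 * ψ r ^ 2) +
      (if q = r then 4 * ψ q ^ 2 else 0) + corr y ψ K Y q r + corr y ψ K Y r q) :=
        Finset.sum_le_sum fun q hq => Finset.sum_le_sum fun r hr => hterm q hq r hr
    _ = 16 * (1 + 1 / (2 * K)) ^ 2 * (∑ q ∈ F, ψ q ^ 2) ^ 2 + 4 * ∑ q ∈ F, ψ q ^ 2 +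
        ∑ q ∈ F, ∑ r ∈ F, corr y ψ K Y q r + ∑ q ∈ F, ∑ r ∈ F, corr y ψ K Y q r := by
        simp only [Finset.sum_add_distrib]
        rw [hsc', hdiag, hmain]
    _ ≤ _ := by linarith

theorem union_ge (h0 : ∀ n, 0 ≤ ψ n) (h1 : ∀ n, ψ n ≤ 1 / 2) (K : ℝ) (hK : 1 ≤ K) (Y : ℕ)
    (hY : 2 ≤ Y) (F : Finset ℕ) (hF : ∀ q ∈ F, 0 < q ∧ 0 < ψ q) (U : Set (ℝ × ℝ))
    (hU : MeasurableSet U) (hFU : ∀ q ∈ F, EE y ψ q ⊆ U) (hT : 0 < ∑ q ∈ F, ψ q ^ 2) :
    16 * (1 - 2 / (Y : ℝ)) ^ 2 ≤ PP.real U * (16 * (1 + 1 / (2 * K)) ^ 2 +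
      (2 * (576 * K ^ 2 + 4 * (Y : ℝ) ^ 2 + 9000) + 4) * (∑ q ∈ F, ψ q ^ 2)⁻¹) := by
  set T := ∑ q ∈ F, ψ q ^ 2 with hTd
  set c := 2 * (576 * K ^ 2 + 4 * (Y : ℝ) ^ 2 + 9000) + 4 with hc
  have hsm := second_moment PP F (Es y ψ Y) (measurableSet_Es y ψ Y) U hU
    (fun q hq => (Es_subset y ψ Y q).trans (hFU q hq))
  have h2 := moment_two (y := y) h0 h1 K hK Y F hF
  have hY0 : (2 : ℝ) ≤ Y := by exact_mod_cast hY
  have hYf : 0 ≤ 1 - 2 / (Y : ℝ) := by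
    rw [sub_nonneg, div_le_one (by linarith)]; exact hY0
  have hA1 : 4 * (1 - 2 / (Y : ℝ)) * T ≤ ∑ q ∈ F, PP.real (Es y ψ Y q) := by
    rw [hTd, Finset.mul_sum]
    apply Finset.sum_le_sum
    intro q hq
    have := PP_Es_ge (y := y) h0 h1 (hF q hq).1 (by omega : 0 < Y)
    linarith
  have hU0 : 0 ≤ PP.real U := measureReal_nonneg
  have h3 : (4 * (1 - 2 / (Y : ℝ)) * T) ^ 2 ≤ PP.real U *
      (16 * (1 + 1 / (2 * K)) ^ 2 * T ^ 2 + c * T) :=
    (pow_le_pow_left₀ (by positivity) hA1 2).trans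
      (hsm.trans (mul_le_mul_of_nonneg_left h2 hU0))
  have hT2 : 0 < T ^ 2 := by positivity
  have e1 : (4 * (1 - 2 / (Y : ℝ)) * T) ^ 2 = 16 * (1 - 2 / (Y : ℝ)) ^ 2 * T ^ 2 := by ring
  have e2 : PP.real U * (16 * (1 + 1 / (2 * K)) ^ 2 * T ^ 2 + c * T) =
      PP.real U * (16 * (1 + 1 / (2 * K)) ^ 2 + c * T⁻¹) * T ^ 2 := by
    field_simp
  rw [e1, e2] at h3
  exact le_of_mul_le_mul_right h3 hT2

/-- The unions have full measure. -/
theorem union_full (h0 : ∀ n, 0 ≤ ψ n) (h1 : ∀ n, ψ n ≤ 1 / 2)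
    (hns : ¬ Summable (fun q : ℕ => ψ q ^ 2)) (N : ℕ) (U : Set (ℝ × ℝ))
    (hU : MeasurableSet U) (hFU : ∀ q, N ≤ q → 0 < q → EE y ψ q ⊆ U) : PP.real U = 1 := by
  classical
  -- the partial sums
  set F : ℕ → Finset ℕ := fun M => (Finset.Ico (N + 1) (N + 1 + M)).filter fun q => 0 < ψ q
    with hFdef
  set T : ℕ → ℝ := fun M => ∑ q ∈ F M, ψ q ^ 2 with hTdef
  have hTeq : ∀ M, T M = ∑ i ∈ Finset.range M, ψ (i + (N + 1)) ^ 2 := by
    intro M
    simp only [hTdef, hFdef]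
    rw [Finset.sum_filter_of_ne, Finset.sum_Ico_eq_sum_range]
    · simp only [Nat.add_sub_cancel_left]
      exact Finset.sum_congr rfl fun i _ => by rw [add_comm]
    · intro q _ hq
      rcases (h0 q).lt_or_eq with h | h
      · exact h
      · rw [← h] at hq; simp at hq
  have hns' : ¬ Summable (fun i : ℕ => ψ (i + (N + 1)) ^ 2) := by
    intro h
    exact hns ((summable_nat_add_iff (f := fun q => ψ q ^ 2) (N + 1)).1 h)
  have hTtop : Tendsto T atTop atTop := by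
    have := (not_summable_iff_tendsto_nat_atTop_of_nonneg
      (f := fun i : ℕ => ψ (i + (N + 1)) ^ 2) (fun i => by positivity)).1 hns'
    exact this.congr fun M => (hTeq M).symm
  have hstep : ∀ (K : ℝ) (Y : ℕ), 1 ≤ K → 2 ≤ Y →
      16 * (1 - 2 / (Y : ℝ)) ^ 2 ≤ PP.real U * (16 * (1 + 1 / (2 * K)) ^ 2) := by
    intro K Y hK hY
    have hlim : Tendsto (fun M => PP.real U * (16 * (1 + 1 / (2 * K)) ^ 2 +
        (2 * (576 * K ^ 2 + 4 * (Y : ℝ) ^ 2 + 9000) + 4) * (T M)⁻¹)) atTop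
        (𝓝 (PP.real U * (16 * (1 + 1 / (2 * K)) ^ 2 +
        (2 * (576 * K ^ 2 + 4 * (Y : ℝ) ^ 2 + 9000) + 4) * 0))) :=
      ((hTtop.inv_tendsto_atTop.const_mul _).const_add _).const_mul _
    rw [mul_zero, add_zero] at hlim
    apply ge_of_tendsto hlim
    filter_upwards [hTtop.eventually_gt_atTop 0] with M hM
    apply union_ge (y := y) h0 h1 K hK Y hY (F M) _ U hU _ hM
    · intro q hq
      simp only [hFdef, Finset.mem_filter, Finset.mem_Ico] at hq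
      exact ⟨by omega, hq.2⟩
    · intro q hq
      simp only [hFdef, Finset.mem_filter, Finset.mem_Ico] at hq
      exact hFU q (by omega) (by omega)
  have hl1 : Tendsto (fun n : ℕ => 16 * (1 - 2 / (n : ℝ)) ^ 2) atTop (𝓝 (16 * (1 - 0) ^ 2)) :=
    ((tendsto_const_nhds.sub (tendsto_const_div_atTop_nhds_zero_nat 2)).pow 2).const_mul _
  have hl2 : Tendsto (fun n : ℕ => PP.real U * (16 * (1 + 1 / (2 * (n : ℝ))) ^ 2)) atTop
      (𝓝 (PP.real U * (16 * (1 + 0) ^ 2))) := by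
    have h3 : Tendsto (fun n : ℕ => 1 / (2 * (n : ℝ))) atTop (𝓝 0) := by
      have := tendsto_const_div_atTop_nhds_zero_nat (1 / 2 : ℝ)
      refine this.congr fun n => ?_
      rw [one_div, one_div, mul_inv]; ring
    exact (((tendsto_const_nhds.add h3).pow 2).const_mul _).const_mul _
  have hfin : 16 * (1 - 0 : ℝ) ^ 2 ≤ PP.real U * (16 * (1 + 0) ^ 2) := by
    apply le_of_tendsto_of_tendsto hl1 hl2
    filter_upwards [eventually_ge_atTop 2] with n hn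
    have : (2 : ℝ) ≤ n := by exact_mod_cast hn
    exact hstep n n (by linarith) hn
  have hle : PP.real U ≤ 1 := measureReal_le_one
  have : (1 : ℝ) ≤ PP.real U := by linarith
  linarith

theorem main_aux (h0 : ∀ n, 0 ≤ ψ n) (h1 : ∀ n, ψ n ≤ 1 / 2)
    (hns : ¬ Summable (fun q : ℕ => ψ q ^ 2)) :
    ∀ᵐ x ∂PP, {q : ℕ | 0 < q ∧ x ∈ EE y ψ q}.Infinite := by
  have hall : ∀ N : ℕ, ∀ᵐ x ∂PP, x ∈ ⋃ q ∈ {q : ℕ | N ≤ q ∧ 0 < q}, EE y ψ q := by
    intro N
    have hUm : MeasurableSet (⋃ q ∈ {q : ℕ | N ≤ q ∧ 0 < q}, EE y ψ q) :=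
      MeasurableSet.biUnion (Set.to_countable _) fun q _ => measurableSet_EE y ψ q
    have := union_full (y := y) h0 h1 hns N _ hUm (fun q hq1 hq2 =>
      Set.subset_biUnion_of_mem (u := fun q => EE y ψ q) (show q ∈ {q : ℕ | N ≤ q ∧ 0 < q} from
        ⟨hq1, hq2⟩))
    rw [measureReal_def] at this
    have h2 : PP (⋃ q ∈ {q : ℕ | N ≤ q ∧ 0 < q}, EE y ψ q) = 1 := by
      rw [← ENNReal.toReal_eq_one_iff]; exact this
    exact (mem_ae_iff_prob_eq_one hUm).2 h2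
  rw [← ae_all_iff] at hall
  filter_upwards [hall] with x hx
  apply Set.infinite_of_forall_exists_gt
  intro a
  have h := hx (a + 1)
  simp only [mem_iUnion, exists_prop] at h
  obtain ⟨q, hq, hxq⟩ := h
  exact ⟨q, ⟨hq.2, hxq⟩, Nat.lt_of_succ_le hq.1⟩

end

/-- Truncation does not change the divergence. -/
theorem not_summable_min {ψ : ℕ → ℝ} (h0 : ∀ n, 0 ≤ ψ n)
    (hns : ¬ Summable (fun q : ℕ => ψ q ^ 2)) :
    ¬ Summable (fun q : ℕ => (min (ψ q) (1 / 2)) ^ 2) := by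
  intro h
  apply hns
  have h1 := h.tendsto_atTop_zero
  have h2 : ∀ᶠ q in atTop, (min (ψ q) (1 / 2)) ^ 2 < 1 / 4 :=
    h1.eventually (gt_mem_nhds (by norm_num))
  rw [eventually_atTop] at h2
  obtain ⟨N, hN⟩ := h2
  rw [← summable_nat_add_iff N] at h ⊢
  refine h.congr fun q => ?_
  have h3 := hN (q + N) (by omega)
  have h4 : ψ (q + N) ≤ 1 / 2 := by
    by_contra hcon
    push Not at hcon
    rw [min_eq_right hcon.le] at h3
    norm_num at h3
  rw [min_eq_left h4]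

/-- The inhomogeneous Khintchine theorem without monotonicity in dimension two. -/
theorem main (y : ℝ × ℝ) (ψ : ℕ → ℝ) (h0 : ∀ q, 0 ≤ ψ q)
    (hns : ¬ Summable (fun q : ℕ => ψ q ^ 2)) :
    ∀ᵐ x ∂(MeasureTheory.volume.restrict (Set.Icc (0 : ℝ × ℝ) 1)),
      {q : ℕ | 0 < q ∧ ∃ a : ℤ × ℤ,
        ‖(q : ℝ) • x - ((a.1 : ℝ), (a.2 : ℝ)) - y‖ < ψ q}.Infinite := by
  have hPP : PP = MeasureTheory.volume.restrict (Set.Icc (0 : ℝ × ℝ) 1) := by
    have e1 : (Set.Icc (0 : ℝ × ℝ) 1) = Set.Icc (0 : ℝ) 1 ×ˢ Set.Icc (0 : ℝ) 1 := by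
      rw [Set.Icc_prod_Icc]; rfl
    have e2 : lam = volume.restrict (Set.Icc (0 : ℝ) 1) := by
      unfold lam
      exact Measure.restrict_congr_set Ioc_ae_eq_Icc
    rw [PP, e1, e2, Measure.prod_restrict]
    rfl
  rw [← hPP]
  have hm := main_aux (y := y) (ψ := fun q => min (ψ q) (1 / 2))
    (fun n => le_min (h0 n) (by norm_num)) (fun n => min_le_right _ _) (not_summable_min h0 hns)
  filter_upwards [hm] with x hx
  apply hx.mono
  rintro q ⟨hq, ⟨a1, ha1⟩, ⟨a2, ha2⟩⟩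
  refine ⟨hq, (a1, a2), ?_⟩
  rw [Prod.norm_def]
  apply max_lt
  · have : |(q : ℝ) * x.1 - a1 - y.1| < ψ q := ha1.trans_le (min_le_left _ _)
    simpa [Real.norm_eq_abs] using this
  · have : |(q : ℝ) * x.2 - a2 - y.2| < ψ q := ha2.trans_le (min_le_left _ _)
    simpa [Real.norm_eq_abs] using this

end Q271.IK
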