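import Pool.Agent.Q271.IK.Sums

/-!
# One-dimensional measure computations
-/

set_option autoImplicit false

namespace Q271.IK

open MeasureTheory Set
open scoped ENNReal

/-- The set of `t` for which `q t - y` is closer than `p` to an integer. -/
def A (q : ℕ) (y p : ℝ) : Set ℝ := {t | ∃ a : ℤ, |(q : ℝ) * t - a - y| < p}

/-- The uniform measure on the unit interval. -/
noncomputable def lam : Measure ℝ := volume.restrict (Ioc (0 : ℝ) 1)

instance : IsProbabilityMeasure lam := ⟨by simp [lam]⟩

theorem lam_preimage {V : Set UnitAddCircle} (hV : MeasurableSet V) :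
    lam ((fun t : ℝ => (t : UnitAddCircle)) ⁻¹' V) = volume V := by
  have h := UnitAddCircle.measurePreserving_mk 0
  rw [zero_add] at h
  exact h.measure_preimage hV.nullMeasurableSet

theorem circ_iff (x p : ℝ) : (∃ a : ℤ, |x - a| < p) ↔ ‖(x : UnitAddCircle)‖ < p := by
  rw [UnitAddCircle.norm_eq]
  constructor
  · rintro ⟨a, ha⟩
    exact (round_le x a).trans_lt ha
  · intro h; exact ⟨round x, h⟩

/-- `A` on the circle. -/
def Ac (q : ℕ) (y p : ℝ) : Set UnitAddCircle := {z | ‖q • z - (y : UnitAddCircle)‖ < p}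

theorem isOpen_Ac (q : ℕ) (y p : ℝ) : IsOpen (Ac q y p) := by
  apply isOpen_lt _ continuous_const
  fun_prop

theorem A_eq (q : ℕ) (y p : ℝ) : A q y p = (fun t : ℝ => (t : UnitAddCircle)) ⁻¹' Ac q y p := by
  ext t
  simp only [A, Ac, mem_setOf_eq, mem_preimage]
  have : (q • (t : UnitAddCircle) - (y : UnitAddCircle)) = ((q * t - y : ℝ) : UnitAddCircle) := by
    rw [← nsmul_eq_mul]; push_cast; rfl
  rw [this, ← circ_iff]
  constructor
  · rintro ⟨a, ha⟩; exact ⟨a, by rwa [show (q : ℝ) * t - y - a = q * t - a - y by ring]⟩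
  · rintro ⟨a, ha⟩; exact ⟨a, by rwa [show (q : ℝ) * t - a - y = q * t - y - a by ring]⟩

theorem measurableSet_A (q : ℕ) (y p : ℝ) : MeasurableSet (A q y p) := by
  rw [A_eq]
  exact (AddCircle.measurable_mk' (isOpen_Ac q y p).measurableSet)

theorem vol_Ac {q : ℕ} (hq : 0 < q) {p : ℝ} (y : ℝ) (hp1 : p ≤ 1 / 2) :
    volume (Ac q y p) = ENNReal.ofReal (2 * p) := by
  have hmp : MeasurePreserving (fun z : UnitAddCircle => (q : ℤ) • z) volume volume :=
    MeasureTheory.Measure.measurePreserving_zsmul volume (by exact_mod_cast hq.ne')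
  have he : Ac q y p = (fun z : UnitAddCircle => (q : ℤ) • z) ⁻¹' Metric.ball (y : UnitAddCircle) p := by
    ext z
    simp only [Ac, Set.mem_setOf_eq, Set.mem_preimage, Metric.mem_ball, dist_eq_norm,
      natCast_zsmul]
  rw [he, hmp.measure_preimage Metric.isOpen_ball.measurableSet.nullMeasurableSet,
    ← measure_congr AddCircle.closedBall_ae_eq_ball, AddCircle.volume_closedBall, min_eq_right]
  linarith

theorem lam_A {q : ℕ} (hq : 0 < q) {p : ℝ} (y : ℝ) (hp1 : p ≤ 1 / 2) :
    lam (A q y p) = ENNReal.ofReal (2 * p) := by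
  rw [A_eq, lam_preimage (isOpen_Ac q y p).measurableSet, vol_Ac hq y hp1]

/-- Number of integers in an interval. -/
theorem card_int_le (S : Finset ℤ) (w ρ : ℝ) (hρ : 0 ≤ ρ) (hS : ∀ c ∈ S, |w + c| < ρ) :
    (S.card : ℝ) ≤ 2 * ρ + 1 := by
  rcases S.eq_empty_or_nonempty with h | h
  · rw [h]; simp; linarith
  · set m := S.min' h
    set M := S.max' h
    have hm := abs_lt.1 (hS m (S.min'_mem h))
    have hM := abs_lt.1 (hS M (S.max'_mem h))
    have hmM : m ≤ M := S.min'_le_max' h
    have hsub : S ⊆ Finset.Icc m M := by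
      intro c hc
      rw [Finset.mem_Icc]
      exact ⟨S.min'_le c hc, S.le_max' c hc⟩
    have hc := Finset.card_le_card hsub
    rw [Int.card_Icc] at hc
    have hc' : (S.card : ℤ) ≤ M + 1 - m := by omega
    have hc2 : (S.card : ℝ) ≤ M + 1 - m := by exact_mod_cast hc'
    linarith [hm.1, hM.2]

/-- Number of shifts. -/
theorem card_shift_le {n l : ℕ} (hn : 0 < n) (hc : Nat.Coprime l n) (u p : ℝ) (hp : 0 ≤ p)
    (S : Finset ℕ) (hS : ∀ j ∈ S, j < n ∧ ∃ a : ℤ, |u + (l : ℝ) * j / n - a| < p) :
    (S.card : ℝ) ≤ 2 * p * n + 1 := by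
  classical
  have hn0 : (0 : ℝ) < n := by exact_mod_cast hn
  choose! f hf using fun j (hj : j ∈ S) => (hS j hj).2
  set c : ℕ → ℤ := fun j => l * j - n * f j with hcdef
  have hinj : Set.InjOn c S := by
    intro i hi j hj hij
    simp only [hcdef] at hij
    have hi' := (hS i hi).1
    have hj' := (hS j hj).1
    have h1 : (l : ℤ) * i ≡ l * j [ZMOD n] := by
      have : (l : ℤ) * i = l * j + n * (f i - f j) := by linarith
      rw [this]
      exact Int.modEq_iff_dvd.2 ⟨-(f i - f j), by ring⟩
    have h2 : l * i ≡ l * j [MOD n] := by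
      rw [← Int.natCast_modEq_iff]; push_cast; exact h1
    have h3 : i ≡ j [MOD n] := Nat.ModEq.cancel_left_of_coprime hc.symm h2
    exact Nat.ModEq.eq_of_lt_of_lt h3 hi' hj'
  have h := card_int_le (S.image c) (u * n) (p * n) (by positivity) (by
    intro z hz
    obtain ⟨j, hj, rfl⟩ := Finset.mem_image.1 hz
    have h1 := hf j hj
    have h2 : u * n + (c j : ℝ) = (u + (l : ℝ) * j / n - f j) * n := by
      simp only [hcdef]; push_cast; field_simp; ring
    rw [h2, abs_mul, abs_of_pos hn0]
    exact mul_lt_mul_of_pos_right h1 hn0)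
  rw [Finset.card_image_of_injOn hinj] at h
  linarith

theorem vol_inter_le {q r : ℕ} (hq : 0 < q) (hr : 0 < r) (y : ℝ) {p p' : ℝ}
    (hp0 : 0 ≤ p) (hp1 : p ≤ 1 / 2) (hp'0 : 0 ≤ p') :
    volume (Ac q y p ∩ Ac r y p') ≤ ENNReal.ofReal (4 * p * p' + 2 * p / red q r) := by
  classical
  set n := red q r with hn
  set l := red r q with hl
  have hn0 : 0 < n := red_pos hq
  have hn0R : (0 : ℝ) < n := by exact_mod_cast hn0
  have hq0R : (0 : ℝ) < q := by exact_mod_cast hq
  have hcop : Nat.Coprime l n := (red_coprime hq).symm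
  set u : ℕ → UnitAddCircle := fun j => (((j : ℝ) / q : ℝ) : UnitAddCircle) with hu
  set V := Ac q y p ∩ Ac r y p' with hV
  have hVm : MeasurableSet V := ((isOpen_Ac q y p).inter (isOpen_Ac r y p')).measurableSet
  set W : ℕ → Set UnitAddCircle := fun j => (fun z => z + u j) ⁻¹' V with hW
  have hWm : ∀ j, MeasurableSet (W j) := fun j => measurable_add_const (u j) hVm
  have hWv : ∀ j, volume (W j) = volume V := fun j => measure_preimage_add_right volume (u j) V
  have hqu : ∀ j, q • u j = 0 := by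
    intro j
    have : q • u j = (((j : ℤ) : ℝ) : UnitAddCircle) := by
      simp only [hu]
      rw [← AddCircle.coe_nsmul, nsmul_eq_mul]
      congr 1
      push_cast
      field_simp
    rw [this]
    have h2 : ((((j : ℤ) : ℝ)) : UnitAddCircle) = 0 := by
      rw [AddCircle.coe_eq_zero_iff]
      exact ⟨j, by simp⟩
    exact h2
  have hWsub : ∀ j, W j ⊆ Ac q y p := by
    intro j z hz
    have h1 : z + u j ∈ Ac q y p := hz.1
    simp only [Ac, mem_setOf_eq] at h1 ⊢
    rwa [smul_add, hqu, add_zero] at h1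
  -- number of `j` with `z ∈ W j`
  have hcount : ∀ z : UnitAddCircle,
      (∑ j ∈ Finset.range n, (W j).indicator (fun _ => (1 : ℝ≥0∞)) z) ≤
      (Ac q y p).indicator (fun _ => ENNReal.ofReal (2 * p' * n + 1)) z := by
    intro z
    by_cases hz : z ∈ Ac q y p
    · rw [indicator_of_mem hz]
      obtain ⟨t, rfl⟩ : ∃ t : ℝ, (t : UnitAddCircle) = z := QuotientAddGroup.mk_surjective z
      have e1 : (∑ j ∈ Finset.range n, (W j).indicator (fun _ => (1 : ℝ≥0∞)) (t : UnitAddCircle)) =
          (((Finset.range n).filter fun j => (t : UnitAddCircle) ∈ W j).card : ℝ≥0∞) := by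
        simp only [indicator_apply]
        rw [Finset.sum_boole]
      rw [e1]
      have h := card_shift_le hn0 hcop (r * t - y) p' hp'0
        ((Finset.range n).filter fun j => (t : UnitAddCircle) ∈ W j) (by
          intro j hj
          rw [Finset.mem_filter, Finset.mem_range] at hj
          refine ⟨hj.1, ?_⟩
          have h1 : (t : UnitAddCircle) + u j ∈ Ac r y p' := hj.2.2
          simp only [Ac, mem_setOf_eq] at h1
          rw [circ_iff]
          convert h1 using 2
          simp only [hu]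
          rw [← AddCircle.coe_add, ← AddCircle.coe_nsmul, ← AddCircle.coe_sub, nsmul_eq_mul]
          congr 1
          have h3 : (q : ℝ) * l = r * n := by
            have := red_cross q r
            exact_mod_cast this
          have h4 : (l : ℝ) * j / n = r * (j / q) := by
            rw [div_eq_iff hn0R.ne']
            field_simp
            linear_combination (j : ℝ) * h3
          rw [h4]; ring)
      rw [← ENNReal.ofReal_natCast]
      exact ENNReal.ofReal_le_ofReal h
    · rw [indicator_of_notMem hz]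
      apply le_of_eq
      apply Finset.sum_eq_zero
      intro j _
      rw [indicator_of_notMem]
      exact fun h => hz (hWsub j h)
  have hint := lintegral_mono (μ := volume) hcount
  rw [lintegral_finsetSum _ (fun j _ => measurable_const.indicator (hWm j)),
    lintegral_indicator (isOpen_Ac q y p).measurableSet, setLIntegral_const] at hint
  simp only [lintegral_indicator (hWm _), setLIntegral_const, one_mul, hWv] at hint
  rw [Finset.sum_const, Finset.card_range, nsmul_eq_mul, vol_Ac hq y hp1,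
    ← ENNReal.ofReal_mul (by positivity)] at hint
  have hfin : volume V ≠ ⊤ := measure_ne_top _ _
  rw [← ENNReal.ofReal_toReal hfin] at hint ⊢
  rw [← ENNReal.ofReal_natCast, ← ENNReal.ofReal_mul (by positivity),
    ENNReal.ofReal_le_ofReal_iff (by positivity)] at hint
  apply ENNReal.ofReal_le_ofReal
  rw [show 4 * p * p' + 2 * p / n = ((2 * p' * n + 1) * (2 * p)) / n by field_simp; ring,
    le_div_iff₀ hn0R]
  linarith

theorem lam_inter_le {q r : ℕ} (hq : 0 < q) (hr : 0 < r) (y : ℝ) {p p' : ℝ}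
    (hp0 : 0 ≤ p) (hp1 : p ≤ 1 / 2) (hp'0 : 0 ≤ p') :
    lam (A q y p ∩ A r y p') ≤ ENNReal.ofReal (4 * p * p' + 2 * p / red q r) := by
  rw [A_eq, A_eq, ← preimage_inter, lam_preimage
    ((isOpen_Ac q y p).inter (isOpen_Ac r y p')).measurableSet]
  exact vol_inter_le hq hr y hp0 hp1 hp'0

/-- The bound with the minimum. -/
theorem lam_inter_le' (ψ : ℕ → ℝ) (h0 : ∀ n, 0 ≤ ψ n) (h1 : ∀ n, ψ n ≤ 1 / 2) {q r : ℕ}
    (hq : 0 < q) (hr : 0 < r) (y : ℝ) :
    lam.real (A q y (ψ q) ∩ A r y (ψ r)) ≤ 4 * ψ q * ψ r + 2 * mm ψ q r := by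
  have a1 := lam_inter_le hq hr y (h0 q) (h1 q) (h0 r)
  have a2 := lam_inter_le hr hq y (h0 r) (h1 r) (h0 q)
  rw [inter_comm] at a2
  have hq' : (0 : ℝ) < red q r := by exact_mod_cast red_pos hq
  have hr' : (0 : ℝ) < red r q := by exact_mod_cast red_pos hr
  have hψq := h0 q
  have hψr := h0 r
  have b1 : lam.real (A q y (ψ q) ∩ A r y (ψ r)) ≤ 4 * ψ q * ψ r + 2 * (ψ q / red q r) := by
    have := ENNReal.toReal_mono ENNReal.ofReal_ne_top a1
    rw [ENNReal.toReal_ofReal (by positivity)] at this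
    rw [measureReal_def]
    linarith [mul_div_assoc 2 (ψ q) (red q r : ℝ)]
  have b2 : lam.real (A q y (ψ q) ∩ A r y (ψ r)) ≤ 4 * ψ q * ψ r + 2 * (ψ r / red r q) := by
    have := ENNReal.toReal_mono ENNReal.ofReal_ne_top a2
    rw [ENNReal.toReal_ofReal (by positivity)] at this
    rw [measureReal_def]
    linarith [mul_div_assoc 2 (ψ r) (red r q : ℝ)]
  unfold mm
  rcases min_choice (ψ q / red q r) (ψ r / red r q) with h | h <;> rw [h] <;> assumption

end Q271.IK
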