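import Pool.Agent.Q271.IK.Sums

/-!
# The sums over all pairs
-/

set_option autoImplicit false

namespace Q271.IK

open Finset

section

open Classical in
/-- Middle range. -/
theorem sumB (ψ : ℕ → ℝ) (h0 : ∀ n, 0 ≤ ψ n) (K : ℝ) (hK : 0 < K) (F : Finset ℕ)
    (hF : ∀ q ∈ F, 0 < q ∧ 0 < ψ q) :
    ∑ q ∈ F, ∑ r ∈ F, (if r < q ∧ DD ψ q r < K then ψ q ^ 2 * ψ r ^ 2 else 0) ≤
      4 * K ^ 2 * ∑ q ∈ F, ψ q ^ 2 := by
  have hsplit : ∀ q ∈ F, ∀ r ∈ F,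
      (if r < q ∧ DD ψ q r < K then ψ q ^ 2 * ψ r ^ 2 else 0) ≤
      (if r < q ∧ ψ q ≤ ψ r ∧ red q r * ψ r < K then ψ q ^ 2 * ψ r ^ 2 else 0) +
      (if 0 < r ∧ ψ r ≤ ψ q ∧ red q r * ψ r < K ∧ red r q * ψ q < K then
        ψ q ^ 2 * ψ r ^ 2 else 0) := by
    intro q hq r hr
    have hnn : 0 ≤ ψ q ^ 2 * ψ r ^ 2 := by positivity
    by_cases h : r < q ∧ DD ψ q r < K
    · rw [if_pos h]
      have ha : red q r * ψ r < K := (le_max_left _ _).trans_lt h.2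
      have hb : red r q * ψ q < K := (le_max_right _ _).trans_lt h.2
      rcases le_total (ψ q) (ψ r) with hc | hc
      · rw [if_pos ⟨h.1, hc, ha⟩]
        split_ifs <;> linarith
      · rw [if_pos (c := 0 < r ∧ ψ r ≤ ψ q ∧ red q r * ψ r < K ∧ red r q * ψ q < K)
          ⟨(hF r hr).1, hc, ha, hb⟩]
        split_ifs <;> linarith
    · rw [if_neg h]
      split_ifs <;> linarith
  have h1 : ∑ q ∈ F, ∑ r ∈ F,
      (if r < q ∧ ψ q ≤ ψ r ∧ red q r * ψ r < K then ψ q ^ 2 * ψ r ^ 2 else 0) ≤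
      ∑ r ∈ F, K ^ 2 * ψ r ^ 2 := by
    rw [Finset.sum_comm]
    apply Finset.sum_le_sum
    intro r hr
    rw [← Finset.sum_filter]
    apply sumB1 ψ h0 K hK r (hF r hr).1 (hF r hr).2
    intro q hq
    exact (Finset.mem_filter.1 hq).2
  have h2 : ∑ q ∈ F, ∑ r ∈ F,
      (if 0 < r ∧ ψ r ≤ ψ q ∧ red q r * ψ r < K ∧ red r q * ψ q < K then
        ψ q ^ 2 * ψ r ^ 2 else 0) ≤ ∑ q ∈ F, 3 * K ^ 2 * ψ q ^ 2 := by
    apply Finset.sum_le_sum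
    intro q hq
    rw [← Finset.sum_filter]
    apply sumB2 ψ h0 K hK q (hF q hq).1 (hF q hq).2
    intro r hr
    exact (Finset.mem_filter.1 hr).2
  calc _ ≤ ∑ q ∈ F, ∑ r ∈ F,
      ((if r < q ∧ ψ q ≤ ψ r ∧ red q r * ψ r < K then ψ q ^ 2 * ψ r ^ 2 else 0) +
      (if 0 < r ∧ ψ r ≤ ψ q ∧ red q r * ψ r < K ∧ red r q * ψ q < K then
        ψ q ^ 2 * ψ r ^ 2 else 0)) :=
        Finset.sum_le_sum fun q hq => Finset.sum_le_sum fun r hr => hsplit q hq r hr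
    _ = _ := by simp only [Finset.sum_add_distrib]
    _ ≤ ∑ r ∈ F, K ^ 2 * ψ r ^ 2 + ∑ q ∈ F, 3 * K ^ 2 * ψ q ^ 2 := add_le_add h1 h2
    _ = 4 * K ^ 2 * ∑ q ∈ F, ψ q ^ 2 := by
        rw [← Finset.mul_sum, ← Finset.mul_sum]; ring

open Classical in
/-- Small reduced parts. -/
theorem sumS (ψ : ℕ → ℝ) (Y : ℕ) (F : Finset ℕ) (hF : ∀ q ∈ F, 0 < q ∧ 0 < ψ q) :
    ∑ q ∈ F, ∑ r ∈ F, (if r < q ∧ red q r < Y then ψ q ^ 2 else 0) ≤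
      (Y : ℝ) ^ 2 * ∑ q ∈ F, ψ q ^ 2 := by
  rw [Finset.mul_sum]
  apply Finset.sum_le_sum
  intro q hq
  rw [← Finset.sum_filter, Finset.sum_const, nsmul_eq_mul]
  apply mul_le_mul_of_nonneg_right _ (by positivity)
  have : (F.filter fun r => r < q ∧ red q r < Y).card ≤
      (Finset.range Y ×ˢ Finset.range Y).card := by
    apply Finset.card_le_card_of_injOn (fun r => (red q r, red r q))
    · intro r hr
      rw [Finset.mem_coe, Finset.mem_filter] at hr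
      simp only [Finset.coe_product, Set.mem_prod, Finset.mem_coe, Finset.mem_range]
      exact ⟨hr.2.2, (red_lt hr.2.1).trans hr.2.2⟩
    · intro r₁ _ r₂ _ he
      simp only [Prod.mk.injEq] at he
      exact pair_inj (hF q hq).1 he.1 he.2
  rw [Finset.card_product, Finset.card_range] at this
  calc (((F.filter fun r => r < q ∧ red q r < Y).card : ℕ) : ℝ) ≤ ((Y * Y : ℕ) : ℝ) := by
        exact_mod_cast this
    _ = (Y : ℝ) ^ 2 := by push_cast; ring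

/-- The condition on the pairs which remain in the small range, for one coordinate. -/
def CC (ψ : ℕ → ℝ) (y : ℝ) (q r : ℕ) : Prop :=
  ∃ j : ℕ, ((1 / 2 : ℝ) ^ (j + 1)) ^ 2 / 4 ≤ DD ψ q r ∧ DD ψ q r < ((1 / 2 : ℝ) ^ (j + 1)) ^ 2 ∧
    G y (((1 / 2 : ℝ) ^ (j + 1)) ^ 2) q r

open Classical in
/-- Small range, fixed scale. -/
theorem sumCj (ψ : ℕ → ℝ) (h0 : ∀ n, 0 ≤ ψ n) (y σ : ℝ) (hσ : 0 < σ) (hσ1 : σ ≤ 1 / 2)
    (F : Finset ℕ) (hF : ∀ q ∈ F, 0 < q ∧ 0 < ψ q) :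
    ∑ q ∈ F, ∑ r ∈ F, (if r < q ∧ σ ^ 2 / 4 ≤ DD ψ q r ∧ DD ψ q r < σ ^ 2 ∧ G y (σ ^ 2) q r
      then mm ψ q r ^ 2 else 0) ≤ 500 * σ * ∑ q ∈ F, ψ q ^ 2 := by
  have hσ2 : σ ^ 2 ≤ 1 / 4 := by nlinarith
  have hσ3 : σ ^ 2 ≤ σ := by nlinarith
  have hδ : 0 < σ ^ 2 := by positivity
  have hsplit : ∀ q ∈ F, ∀ r ∈ F,
      (if r < q ∧ σ ^ 2 / 4 ≤ DD ψ q r ∧ DD ψ q r < σ ^ 2 ∧ G y (σ ^ 2) q r
        then mm ψ q r ^ 2 else 0) ≤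
      (if r < q ∧ ψ q ≤ ψ r ∧ σ ^ 2 / 4 ≤ red q r * ψ r ∧ red q r * ψ r < σ ^ 2 ∧
        G y (σ ^ 2) q r then mm ψ q r ^ 2 else 0) +
      (if 0 < r ∧ r < q ∧ ψ r ≤ ψ q ∧ σ ^ 2 / 4 ≤ DD ψ q r ∧ DD ψ q r < σ ^ 2 ∧
        G y (σ ^ 2) q r then mm ψ q r ^ 2 else 0) := by
    intro q hq r hr
    have hnn : 0 ≤ mm ψ q r ^ 2 := by positivity
    by_cases h : r < q ∧ σ ^ 2 / 4 ≤ DD ψ q r ∧ DD ψ q r < σ ^ 2 ∧ G y (σ ^ 2) q r
    · rw [if_pos h]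
      obtain ⟨h1, h2, h3, h4⟩ := h
      rcases le_total (ψ q) (ψ r) with hc | hc
      · have hlt : (red r q : ℝ) < red q r := by exact_mod_cast red_lt h1
        have hD : DD ψ q r = red q r * ψ r := by
          unfold DD
          apply max_eq_left
          exact mul_le_mul hlt.le hc (h0 q) (by positivity)
        rw [if_pos (c := r < q ∧ ψ q ≤ ψ r ∧ σ ^ 2 / 4 ≤ red q r * ψ r ∧ red q r * ψ r < σ ^ 2 ∧
          G y (σ ^ 2) q r) ⟨h1, hc, by rwa [← hD], by rwa [← hD], h4⟩]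
        split_ifs <;> linarith
      · rw [if_pos (c := 0 < r ∧ r < q ∧ ψ r ≤ ψ q ∧ σ ^ 2 / 4 ≤ DD ψ q r ∧ DD ψ q r < σ ^ 2 ∧
          G y (σ ^ 2) q r) ⟨(hF r hr).1, h1, hc, h2, h3, h4⟩]
        split_ifs <;> linarith
    · rw [if_neg h]
      split_ifs <;> linarith
  have h1 : ∑ q ∈ F, ∑ r ∈ F,
      (if r < q ∧ ψ q ≤ ψ r ∧ σ ^ 2 / 4 ≤ red q r * ψ r ∧ red q r * ψ r < σ ^ 2 ∧
        G y (σ ^ 2) q r then mm ψ q r ^ 2 else 0) ≤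
      ∑ r ∈ F, 384 * σ ^ 2 * ψ r ^ 2 := by
    rw [Finset.sum_comm]
    apply Finset.sum_le_sum
    intro r hr
    rw [← Finset.sum_filter]
    apply sumC1 ψ h0 y (σ ^ 2) hδ hσ2 r (hF r hr).1 (hF r hr).2
    intro q hq
    exact (Finset.mem_filter.1 hq).2
  have h2 : ∑ q ∈ F, ∑ r ∈ F,
      (if 0 < r ∧ r < q ∧ ψ r ≤ ψ q ∧ σ ^ 2 / 4 ≤ DD ψ q r ∧ DD ψ q r < σ ^ 2 ∧
        G y (σ ^ 2) q r then mm ψ q r ^ 2 else 0) ≤ ∑ q ∈ F, 98 * σ * ψ q ^ 2 := by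
    apply Finset.sum_le_sum
    intro q hq
    rw [← Finset.sum_filter]
    apply sumC2 ψ h0 y σ hσ hσ2 q (hF q hq).1 (hF q hq).2
    intro r hr
    exact (Finset.mem_filter.1 hr).2
  calc _ ≤ ∑ q ∈ F, ∑ r ∈ F,
      ((if r < q ∧ ψ q ≤ ψ r ∧ σ ^ 2 / 4 ≤ red q r * ψ r ∧ red q r * ψ r < σ ^ 2 ∧
        G y (σ ^ 2) q r then mm ψ q r ^ 2 else 0) +
      (if 0 < r ∧ r < q ∧ ψ r ≤ ψ q ∧ σ ^ 2 / 4 ≤ DD ψ q r ∧ DD ψ q r < σ ^ 2 ∧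
        G y (σ ^ 2) q r then mm ψ q r ^ 2 else 0)) :=
        Finset.sum_le_sum fun q hq => Finset.sum_le_sum fun r hr => hsplit q hq r hr
    _ = _ := by simp only [Finset.sum_add_distrib]
    _ ≤ ∑ r ∈ F, 384 * σ ^ 2 * ψ r ^ 2 + ∑ q ∈ F, 98 * σ * ψ q ^ 2 := add_le_add h1 h2
    _ = (384 * σ ^ 2 + 98 * σ) * ∑ q ∈ F, ψ q ^ 2 := by
        rw [← Finset.mul_sum, ← Finset.mul_sum]; ring
    _ ≤ _ := by
        apply mul_le_mul_of_nonneg_right _ (Finset.sum_nonneg fun _ _ => by positivity)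
        nlinarith

theorem sum_half_le (J : ℕ) : ∑ j ∈ Finset.range J, (1 / 2 : ℝ) ^ (j + 1) ≤ 1 := by
  have : ∑ j ∈ Finset.range J, (1 / 2 : ℝ) ^ (j + 1) = 1 - (1 / 2) ^ J := by
    induction J with
    | zero => simp
    | succ n ih => rw [Finset.sum_range_succ, ih, pow_succ]; ring
  rw [this]
  have : (0 : ℝ) ≤ (1 / 2) ^ J := by positivity
  linarith

open Classical in
/-- Small range. -/
theorem sumC (ψ : ℕ → ℝ) (h0 : ∀ n, 0 ≤ ψ n) (y : ℝ) (F : Finset ℕ)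
    (hF : ∀ q ∈ F, 0 < q ∧ 0 < ψ q) :
    ∑ q ∈ F, ∑ r ∈ F, (if r < q ∧ CC ψ y q r then mm ψ q r ^ 2 else 0) ≤
      500 * ∑ q ∈ F, ψ q ^ 2 := by
  set jj : ℕ × ℕ → ℕ := fun x => if h : CC ψ y x.1 x.2 then h.choose else 0 with hjj
  set J := (F ×ˢ F).sup jj + 1 with hJ
  have hterm : ∀ q ∈ F, ∀ r ∈ F, (if r < q ∧ CC ψ y q r then mm ψ q r ^ 2 else 0) ≤
      ∑ j ∈ Finset.range J, (if r < q ∧ ((1 / 2 : ℝ) ^ (j + 1)) ^ 2 / 4 ≤ DD ψ q r ∧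
        DD ψ q r < ((1 / 2 : ℝ) ^ (j + 1)) ^ 2 ∧
        G y (((1 / 2 : ℝ) ^ (j + 1)) ^ 2) q r then mm ψ q r ^ 2 else 0) := by
    intro q hq r hr
    have hnn : 0 ≤ mm ψ q r ^ 2 := by positivity
    by_cases h : r < q ∧ CC ψ y q r
    · rw [if_pos h]
      have hj : jj (q, r) ∈ Finset.range J := by
        rw [Finset.mem_range, hJ]
        exact Nat.lt_succ_of_le (Finset.le_sup (f := jj) (Finset.mk_mem_product hq hr))
      have hjv : jj (q, r) = h.2.choose := by simp only [hjj]; rw [dif_pos h.2]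
      have hs := h.2.choose_spec
      rw [← hjv] at hs
      refine le_trans ?_ (Finset.single_le_sum (f := fun j =>
        (if r < q ∧ ((1 / 2 : ℝ) ^ (j + 1)) ^ 2 / 4 ≤ DD ψ q r ∧
        DD ψ q r < ((1 / 2 : ℝ) ^ (j + 1)) ^ 2 ∧
        G y (((1 / 2 : ℝ) ^ (j + 1)) ^ 2) q r then mm ψ q r ^ 2 else 0)) ?_ hj)
      · rw [if_pos ⟨h.1, hs.1, hs.2.1, hs.2.2⟩]
      · intro j _; split_ifs <;> linarith
    · rw [if_neg h]
      apply Finset.sum_nonneg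
      intro j _; split_ifs <;> linarith
  calc _ ≤ ∑ q ∈ F, ∑ r ∈ F, ∑ j ∈ Finset.range J,
        (if r < q ∧ ((1 / 2 : ℝ) ^ (j + 1)) ^ 2 / 4 ≤ DD ψ q r ∧
        DD ψ q r < ((1 / 2 : ℝ) ^ (j + 1)) ^ 2 ∧
        G y (((1 / 2 : ℝ) ^ (j + 1)) ^ 2) q r then mm ψ q r ^ 2 else 0) :=
        Finset.sum_le_sum fun q hq => Finset.sum_le_sum fun r hr => hterm q hq r hr
    _ = ∑ j ∈ Finset.range J, ∑ q ∈ F, ∑ r ∈ F,
        (if r < q ∧ ((1 / 2 : ℝ) ^ (j + 1)) ^ 2 / 4 ≤ DD ψ q r ∧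
        DD ψ q r < ((1 / 2 : ℝ) ^ (j + 1)) ^ 2 ∧
        G y (((1 / 2 : ℝ) ^ (j + 1)) ^ 2) q r then mm ψ q r ^ 2 else 0) :=
        (Finset.sum_congr rfl fun q _ => Finset.sum_comm).trans Finset.sum_comm
    _ ≤ ∑ j ∈ Finset.range J, 500 * (1 / 2 : ℝ) ^ (j + 1) * ∑ q ∈ F, ψ q ^ 2 := by
        apply Finset.sum_le_sum
        intro j _
        apply sumCj ψ h0 y _ (by positivity) _ F hF
        rw [pow_succ]
        have : (1 / 2 : ℝ) ^ j ≤ 1 := pow_le_one₀ (by norm_num) (by norm_num)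
        linarith
    _ = 500 * (∑ j ∈ Finset.range J, (1 / 2 : ℝ) ^ (j + 1)) * ∑ q ∈ F, ψ q ^ 2 := by
        rw [← Finset.sum_mul, ← Finset.mul_sum]
    _ ≤ 500 * 1 * ∑ q ∈ F, ψ q ^ 2 := by
        apply mul_le_mul_of_nonneg_right _ (Finset.sum_nonneg fun _ _ => by positivity)
        apply mul_le_mul_of_nonneg_left (sum_half_le J) (by norm_num)
    _ = _ := by ring

end

end Q271.IK
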