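import Pool.Agent.Q271.IK.One
import Pool.Agent.Q271.IK.Pairs

/-!
# The reduced approximation sets

From the set `EE q` of the points `x` with a numerator `a` such that `|q x - a - y| < ψ q` we remove
the numerators which lie, for some divisor `n ≥ Y` of `q`, in a certain residue class modulo `n`.
-/

set_option autoImplicit false

namespace Q271.IK

open MeasureTheory Set
open scoped ENNReal

/-- The vectors `(d, k)` with `0 < d < n` near the line. -/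
def Bad (y : ℝ × ℝ) (n : ℕ) (δ : ℝ) (d : ℕ) (k : ℤ × ℤ) : Prop :=
  0 < d ∧ d < n ∧ |(d : ℝ) * y.1 - k.1| < 2 * δ ∧ |(d : ℝ) * y.2 - k.2| < 2 * δ

/-- Any two of these vectors are proportional. -/
def Par (y : ℝ × ℝ) (n : ℕ) (δ : ℝ) : Prop :=
  ∀ (d d' : ℕ) (k k' : ℤ × ℤ), Bad y n δ d k → Bad y n δ d' k' →
    k.1 * d' = k'.1 * d ∧ k.2 * d' = k'.2 * d

/-- The removed numerators. -/
def Rem (y : ℝ × ℝ) (n : ℕ) (a : ℤ × ℤ) : Prop :=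
  ∃ (δ : ℝ) (d : ℕ) (k : ℤ × ℤ), Par y n δ ∧ Bad y n δ d k ∧ Nat.Coprime d n ∧
    (n : ℤ) ∣ k.1 + d * a.1 ∧ (n : ℤ) ∣ k.2 + d * a.2

theorem Bad.mono {y : ℝ × ℝ} {n : ℕ} {δ δ' : ℝ} {d : ℕ} {k : ℤ × ℤ} (h : Bad y n δ d k)
    (hδ : δ ≤ δ') : Bad y n δ' d k :=
  ⟨h.1, h.2.1, by linarith [h.2.2.1], by linarith [h.2.2.2]⟩

theorem dvd_aux {n : ℕ} {d d' : ℕ} {k k' a a' : ℤ} (hd : Nat.Coprime d n) (hd' : Nat.Coprime d' n)
    (h : k * d' = k' * d) (h1 : (n : ℤ) ∣ k + d * a) (h2 : (n : ℤ) ∣ k' + d' * a') :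
    (n : ℤ) ∣ a - a' := by
  have h3 : (n : ℤ) ∣ ((d : ℤ) * d') * (a - a') := by
    have e : ((d : ℤ) * d') * (a - a') = (k + d * a) * d' - (k' + d' * a') * d := by
      linear_combination -h
    rw [e]
    exact dvd_sub (Dvd.dvd.mul_right h1 _) (Dvd.dvd.mul_right h2 _)
  have hc : IsCoprime (n : ℤ) ((d : ℤ) * d') := by
    apply IsCoprime.mul_right
    · exact Nat.isCoprime_iff_coprime.2 hd.symm
    · exact Nat.isCoprime_iff_coprime.2 hd'.symm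
  exact hc.dvd_of_dvd_mul_left h3

theorem Rem_unique_aux {y : ℝ × ℝ} {n : ℕ} {a a' : ℤ × ℤ} {δ δ' : ℝ} {d d' : ℕ} {k k' : ℤ × ℤ}
    (hle : δ ≤ δ') (hP : Par y n δ') (hB : Bad y n δ d k) (hB' : Bad y n δ' d' k')
    (hd : Nat.Coprime d n) (hd' : Nat.Coprime d' n)
    (h : (n : ℤ) ∣ k.1 + d * a.1 ∧ (n : ℤ) ∣ k.2 + d * a.2)
    (h' : (n : ℤ) ∣ k'.1 + d' * a'.1 ∧ (n : ℤ) ∣ k'.2 + d' * a'.2) :
    (n : ℤ) ∣ a.1 - a'.1 ∧ (n : ℤ) ∣ a.2 - a'.2 := by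
  obtain ⟨e1, e2⟩ := hP d d' k k' (hB.mono hle) hB'
  exact ⟨dvd_aux hd hd' e1 h.1 h'.1, dvd_aux hd hd' e2 h.2 h'.2⟩

theorem Rem_unique {y : ℝ × ℝ} {n : ℕ} {a a' : ℤ × ℤ} (h : Rem y n a) (h' : Rem y n a') :
    (n : ℤ) ∣ a.1 - a'.1 ∧ (n : ℤ) ∣ a.2 - a'.2 := by
  obtain ⟨δ, d, k, h1, h2, h3, h4, h5⟩ := h
  obtain ⟨δ', d', k', g1, g2, g3, g4, g5⟩ := h'
  rcases le_total δ δ' with hle | hle
  · exact Rem_unique_aux hle g1 h2 g2 h3 g3 ⟨h4, h5⟩ ⟨g4, g5⟩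
  · obtain ⟨e1, e2⟩ := Rem_unique_aux hle h1 g2 h2 g3 h3 ⟨g4, g5⟩ ⟨h4, h5⟩
    exact ⟨by rw [← neg_sub]; exact (dvd_neg.2 e1), by rw [← neg_sub]; exact (dvd_neg.2 e2)⟩

/-- The approximation set. -/
def EE (y : ℝ × ℝ) (ψ : ℕ → ℝ) (q : ℕ) : Set (ℝ × ℝ) := A q y.1 (ψ q) ×ˢ A q y.2 (ψ q)

/-- The reduced approximation set. -/
def Es (y : ℝ × ℝ) (ψ : ℕ → ℝ) (Y : ℕ) (q : ℕ) : Set (ℝ × ℝ) :=
  {x | ∃ a : ℤ × ℤ, |(q : ℝ) * x.1 - a.1 - y.1| < ψ q ∧ |(q : ℝ) * x.2 - a.2 - y.2| < ψ q ∧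
    ∀ n, n ∣ q → Y ≤ n → ¬ Rem y n a}

theorem Es_subset (y : ℝ × ℝ) (ψ : ℕ → ℝ) (Y q : ℕ) : Es y ψ Y q ⊆ EE y ψ q := by
  rintro x ⟨a, h1, h2, _⟩
  exact ⟨⟨a.1, h1⟩, ⟨a.2, h2⟩⟩

theorem measurableSet_EE (y : ℝ × ℝ) (ψ : ℕ → ℝ) (q : ℕ) : MeasurableSet (EE y ψ q) :=
  (measurableSet_A _ _ _).prod (measurableSet_A _ _ _)

theorem measurableSet_Es (y : ℝ × ℝ) (ψ : ℕ → ℝ) (Y q : ℕ) : MeasurableSet (Es y ψ Y q) := by
  have : Es y ψ Y q = ⋃ a : ℤ × ℤ, {x | |(q : ℝ) * x.1 - a.1 - y.1| < ψ q ∧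
      |(q : ℝ) * x.2 - a.2 - y.2| < ψ q ∧ ∀ n, n ∣ q → Y ≤ n → ¬ Rem y n a} := by
    ext x; simp [Es]
  rw [this]
  apply MeasurableSet.iUnion
  intro a
  by_cases h : ∀ n, n ∣ q → Y ≤ n → ¬ Rem y n a
  · have e : {x : ℝ × ℝ | |(q : ℝ) * x.1 - a.1 - y.1| < ψ q ∧
        |(q : ℝ) * x.2 - a.2 - y.2| < ψ q ∧ ∀ n, n ∣ q → Y ≤ n → ¬ Rem y n a} =
        {x | |(q : ℝ) * x.1 - a.1 - y.1| < ψ q} ∩ {x | |(q : ℝ) * x.2 - a.2 - y.2| < ψ q} := by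
      ext x
      constructor
      · rintro ⟨h1, h2, _⟩; exact ⟨h1, h2⟩
      · rintro ⟨h1, h2⟩; exact ⟨h1, h2, h⟩
    rw [e]
    apply MeasurableSet.inter
    · exact measurableSet_lt (by fun_prop) measurable_const
    · exact measurableSet_lt (by fun_prop) measurable_const
  · have e : {x : ℝ × ℝ | |(q : ℝ) * x.1 - a.1 - y.1| < ψ q ∧
        |(q : ℝ) * x.2 - a.2 - y.2| < ψ q ∧ ∀ n, n ∣ q → Y ≤ n → ¬ Rem y n a} = ∅ := by
      ext x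
      simp only [mem_setOf_eq, mem_empty_iff_false, iff_false]
      rintro ⟨_, _, h3⟩; exact h h3
    rw [e]; exact MeasurableSet.empty

/-- The uniform measure on the unit square. -/
noncomputable def PP : Measure (ℝ × ℝ) := lam.prod lam

instance : IsProbabilityMeasure PP := by unfold PP; infer_instance

theorem PP_EE {y : ℝ × ℝ} {ψ : ℕ → ℝ} (h0 : ∀ n, 0 ≤ ψ n) (h1 : ∀ n, ψ n ≤ 1 / 2) {q : ℕ}
    (hq : 0 < q) : PP.real (EE y ψ q) = 4 * ψ q ^ 2 := by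
  rw [measureReal_def, PP, EE, Measure.prod_prod, lam_A hq _ (h1 q), lam_A hq _ (h1 q),
    ENNReal.toReal_mul, ENNReal.toReal_ofReal (by have := h0 q; positivity)]
  ring

theorem PP_inter_le {y : ℝ × ℝ} {ψ : ℕ → ℝ} (h0 : ∀ n, 0 ≤ ψ n) (h1 : ∀ n, ψ n ≤ 1 / 2)
    {q r : ℕ} (hq : 0 < q) (hr : 0 < r) :
    PP.real (EE y ψ q ∩ EE y ψ r) ≤ (4 * ψ q * ψ r + 2 * mm ψ q r) ^ 2 := by
  rw [EE, EE, Set.prod_inter_prod, measureReal_def, PP, Measure.prod_prod, ENNReal.toReal_mul]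
  have a1 := lam_inter_le' ψ h0 h1 hq hr y.1
  have a2 := lam_inter_le' ψ h0 h1 hq hr y.2
  have b1 : 0 ≤ lam.real (A q y.1 (ψ q) ∩ A r y.1 (ψ r)) := measureReal_nonneg
  have b2 : 0 ≤ lam.real (A q y.2 (ψ q) ∩ A r y.2 (ψ r)) := measureReal_nonneg
  rw [measureReal_def] at a1 a2 b1 b2
  rw [sq]
  exact mul_le_mul a1 a2 b2 (b1.trans a1)

/-- The removed part for one divisor. -/
def Zr (y : ℝ × ℝ) (ψ : ℕ → ℝ) (q n : ℕ) : Set (ℝ × ℝ) :=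
  {x | ∃ a : ℤ × ℤ, |(q : ℝ) * x.1 - a.1 - y.1| < ψ q ∧ |(q : ℝ) * x.2 - a.2 - y.2| < ψ q ∧
    Rem y n a}

theorem class_aux {q n : ℕ} (hn : 0 < n) (hnq : n ∣ q) {c a : ℤ} (h : (n : ℤ) ∣ a - c)
    {t y p : ℝ} (ht : |(q : ℝ) * t - a - y| < p) : t ∈ A (q / n) ((c + y) / n) (p / n) := by
  obtain ⟨b, hb⟩ := h
  have hn0 : (0 : ℝ) < n := by exact_mod_cast hn
  refine ⟨b, ?_⟩
  have hbR : (a : ℝ) - c = n * b := by exact_mod_cast hb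
  rw [lt_div_iff₀ hn0, Nat.cast_div hnq hn0.ne']
  rw [← abs_of_pos hn0, ← abs_mul, abs_of_pos hn0]
  have : ((q : ℝ) / n * t - b - (c + y) / n) * n = q * t - a - y := by
    field_simp
    linear_combination hbR
  rw [this]
  exact ht

theorem PP_Zr {y : ℝ × ℝ} {ψ : ℕ → ℝ} (h0 : ∀ n, 0 ≤ ψ n) (h1 : ∀ n, ψ n ≤ 1 / 2) {q n : ℕ}
    (hq : 0 < q) (hn : 0 < n) (hnq : n ∣ q) :
    PP.real (Zr y ψ q n) ≤ 4 * ψ q ^ 2 * (1 / (n : ℝ) ^ 2) := by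
  by_cases hex : ∃ c, Rem y n c
  · obtain ⟨c, hc⟩ := hex
    have hn1 : (1 : ℝ) ≤ n := by exact_mod_cast hn
    have hn0 : (0 : ℝ) < n := by linarith
    have hψ := h0 q
    have hsub : Zr y ψ q n ⊆ A (q / n) ((c.1 + y.1) / n) (ψ q / n) ×ˢ
        A (q / n) ((c.2 + y.2) / n) (ψ q / n) := by
      rintro x ⟨a, g1, g2, g3⟩
      obtain ⟨e1, e2⟩ := Rem_unique g3 hc
      exact ⟨class_aux hn hnq e1 g1, class_aux hn hnq e2 g2⟩
    have hle : ψ q / n ≤ 1 / 2 := (div_le_self hψ hn1).trans (h1 q)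
    have hqn : 0 < q / n := Nat.div_pos (Nat.le_of_dvd hq hnq) hn
    calc PP.real (Zr y ψ q n) ≤ PP.real (A (q / n) ((c.1 + y.1) / n) (ψ q / n) ×ˢ
        A (q / n) ((c.2 + y.2) / n) (ψ q / n)) := measureReal_mono hsub (measure_ne_top _ _)
      _ = (2 * (ψ q / n)) * (2 * (ψ q / n)) := by
          rw [measureReal_def, PP, Measure.prod_prod, lam_A hqn _ hle, lam_A hqn _ hle,
            ENNReal.toReal_mul, ENNReal.toReal_ofReal (by positivity)]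
      _ = _ := by field_simp; ring
  · have : Zr y ψ q n = ∅ := by
      ext x
      simp only [Zr, mem_setOf_eq, mem_empty_iff_false, iff_false]
      rintro ⟨a, _, _, h⟩
      exact hex ⟨a, h⟩
    rw [this]; simp; positivity

theorem PP_Es_ge {y : ℝ × ℝ} {ψ : ℕ → ℝ} (h0 : ∀ n, 0 ≤ ψ n) (h1 : ∀ n, ψ n ≤ 1 / 2) {q Y : ℕ}
    (hq : 0 < q) (hY : 0 < Y) : 4 * ψ q ^ 2 * (1 - 2 / Y) ≤ PP.real (Es y ψ Y q) := by
  classical
  set T := q.divisors.filter fun n => Y ≤ n with hT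
  have hsub : EE y ψ q ⊆ Es y ψ Y q ∪ ⋃ n ∈ T, Zr y ψ q n := by
    rintro x ⟨⟨a1, ha1⟩, ⟨a2, ha2⟩⟩
    by_cases h : ∀ n, n ∣ q → Y ≤ n → ¬ Rem y n (a1, a2)
    · exact Or.inl ⟨(a1, a2), ha1, ha2, h⟩
    · push Not at h
      obtain ⟨n, g1, g2, g3⟩ := h
      right
      simp only [mem_iUnion]
      exact ⟨n, by rw [hT, Finset.mem_filter, Nat.mem_divisors]; exact ⟨⟨g1, hq.ne'⟩, g2⟩,
        (a1, a2), ha1, ha2, g3⟩
  have hψ := h0 q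
  have e1 : PP.real (⋃ n ∈ T, Zr y ψ q n) ≤ 4 * ψ q ^ 2 * (2 / Y) := by
    calc _ ≤ ∑ n ∈ T, PP.real (Zr y ψ q n) := measureReal_biUnion_finset_le _ _
      _ ≤ ∑ n ∈ T, 4 * ψ q ^ 2 * (1 / (n : ℝ) ^ 2) := by
          apply Finset.sum_le_sum
          intro n hn
          rw [hT, Finset.mem_filter, Nat.mem_divisors] at hn
          exact PP_Zr h0 h1 hq (by omega) hn.1.1
      _ = 4 * ψ q ^ 2 * ∑ n ∈ T, 1 / (n : ℝ) ^ 2 := by rw [Finset.mul_sum]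
      _ ≤ _ := by
          apply mul_le_mul_of_nonneg_left _ (by positivity)
          apply sum_inv_sq_le _ _ (by exact_mod_cast hY)
          intro n hn
          rw [hT, Finset.mem_filter] at hn
          exact_mod_cast hn.2
  have e2 : PP.real (EE y ψ q) ≤ PP.real (Es y ψ Y q) + PP.real (⋃ n ∈ T, Zr y ψ q n) :=
    (measureReal_mono hsub (measure_ne_top _ _)).trans (measureReal_union_le _ _)
  rw [PP_EE h0 h1 hq] at e2
  nlinarith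

/-- The alignment of two numerators. -/
theorem align {q r : ℕ} (hq : 0 < q) (hr : 0 < r) {t y p p' : ℝ} {a b : ℤ}
    (ha : |(q : ℝ) * t - a - y| < p) (hb : |(r : ℝ) * t - b - y| < p') :
    |((red q r : ℝ) - red r q) * y - ((red r q : ℤ) * a - (red q r : ℤ) * b : ℤ)| <
      red q r * p' + red r q * p := by
  have hn : (0 : ℝ) < red q r := by exact_mod_cast red_pos hq
  have hl : (0 : ℝ) < red r q := by exact_mod_cast red_pos hr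
  have hx : (q : ℝ) * red r q = r * red q r := by exact_mod_cast red_cross q r
  have e : ((red q r : ℝ) - red r q) * y - ((red r q : ℤ) * a - (red q r : ℤ) * b : ℤ) =
      -((red q r : ℝ) * (r * t - b - y)) + red r q * (q * t - a - y) := by
    push_cast
    linear_combination -t * hx
  rw [e]
  refine (abs_add_le _ _).trans_lt ?_
  rw [abs_neg, abs_mul, abs_mul, abs_of_pos hn, abs_of_pos hl]
  exact add_lt_add (mul_lt_mul_of_pos_left hb hn) (mul_lt_mul_of_pos_left ha hl)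

/-- If the vectors near the line are proportional then the pair contributes nothing. -/
theorem Es_inter_empty {y : ℝ × ℝ} {ψ : ℕ → ℝ} {Y q r : ℕ} (hr : 0 < r) (hrq : r < q) {δ : ℝ}
    (hD : DD ψ q r < δ) (hP : Par y (red q r) δ) (hY : Y ≤ red q r) :
    Es y ψ Y q ∩ EE y ψ r = ∅ := by
  have hq : 0 < q := by omega
  ext x
  simp only [mem_inter_iff, mem_empty_iff_false, iff_false, not_and]
  rintro ⟨a, ha1, ha2, ha⟩ ⟨⟨b1, hb1⟩, ⟨b2, hb2⟩⟩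
  have hlt := red_lt hrq
  have hp : 0 < red r q := red_pos hr
  have c1 := align hq hr ha1 hb1
  have c2 := align hq hr ha2 hb2
  have hle : red q r * ψ r + red r q * ψ q < 2 * δ := by
    have h1 : red q r * ψ r ≤ DD ψ q r := le_max_left _ _
    have h2 : red r q * ψ q ≤ DD ψ q r := le_max_right _ _
    linarith
  have hcast : ((red q r - red r q : ℕ) : ℝ) = (red q r : ℝ) - red r q := Nat.cast_sub hlt.le
  have hcastZ : ((red q r - red r q : ℕ) : ℤ) = (red q r : ℤ) - red r q := Nat.cast_sub hlt.le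
  apply ha (red q r) (red_dvd q r) hY
  refine ⟨δ, red q r - red r q, ((red r q : ℤ) * a.1 - (red q r : ℤ) * b1,
    (red r q : ℤ) * a.2 - (red q r : ℤ) * b2), hP, ⟨by omega, by omega, ?_, ?_⟩, ?_, ?_, ?_⟩
  · rw [hcast]; exact c1.trans hle
  · rw [hcast]; exact c2.trans hle
  · rw [Nat.coprime_comm, Nat.coprime_self_sub_right hlt.le]
    exact red_coprime hq
  · refine ⟨a.1 - b1, ?_⟩
    rw [hcastZ]; ring
  · refine ⟨a.2 - b2, ?_⟩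
    rw [hcastZ]; ring

theorem exists_scale {D : ℝ} (h0 : 0 < D) (h1 : D < 1 / 4) :
    ∃ j : ℕ, ((1 / 2 : ℝ) ^ (j + 1)) ^ 2 / 4 ≤ D ∧ D < ((1 / 2 : ℝ) ^ (j + 1)) ^ 2 := by
  have hex : ∃ n : ℕ, (1 / 4 : ℝ) ^ n ≤ D := by
    obtain ⟨n, hn⟩ := exists_pow_lt_of_lt_one h0 (by norm_num : (1 / 4 : ℝ) < 1)
    exact ⟨n, hn.le⟩
  classical
  set n := Nat.find hex with hn
  have hspec : (1 / 4 : ℝ) ^ n ≤ D := Nat.find_spec hex
  have h2 : 2 ≤ n := by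
    by_contra hcon
    have : n = 0 ∨ n = 1 := by omega
    rcases this with h | h <;> rw [h] at hspec <;> norm_num at hspec <;> linarith
  obtain ⟨j, hj⟩ : ∃ j, n = j + 2 := ⟨n - 2, by omega⟩
  have hmin : D < (1 / 4 : ℝ) ^ (j + 1) := by
    by_contra hcon
    push Not at hcon
    have := Nat.find_min' hex hcon
    omega
  have e : ((1 / 2 : ℝ) ^ (j + 1)) ^ 2 = (1 / 4) ^ (j + 1) := by
    rw [← pow_mul, mul_comm, pow_mul]; norm_num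
  refine ⟨j, ?_, ?_⟩
  · rw [e]
    rw [hj] at hspec
    calc (1 / 4 : ℝ) ^ (j + 1) / 4 = (1 / 4 : ℝ) ^ (j + 2) := by rw [pow_succ (1 / 4 : ℝ) (j + 1)]; ring
      _ ≤ D := hspec
  · rw [e]; exact hmin

/-- If the vectors near the line are not all proportional then the pair is counted in `CC`. -/
theorem CC_of_not {y : ℝ × ℝ} {ψ : ℕ → ℝ} {Y q r : ℕ} (hr : 0 < r) (hrq : r < q)
    (hψ : 0 < ψ q ∧ 0 < ψ r) (hD : DD ψ q r < 1 / 4) (hY : Y ≤ red q r)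
    (hne : (Es y ψ Y q ∩ EE y ψ r).Nonempty) : CC ψ y.1 q r ∨ CC ψ y.2 q r := by
  have hq : 0 < q := by omega
  have hn : (0 : ℝ) < red q r := by exact_mod_cast red_pos hq
  have hD0 : 0 < DD ψ q r := lt_of_lt_of_le (mul_pos hn hψ.2) (le_max_left _ _)
  obtain ⟨j, hj1, hj2⟩ := exists_scale hD0 hD
  set δ : ℝ := ((1 / 2 : ℝ) ^ (j + 1)) ^ 2 with hδ
  have hnot : ¬ Par y (red q r) δ := by
    intro hP
    have := Es_inter_empty (y := y) hr hrq hj2 hP hY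
    rw [this] at hne
    exact Set.not_nonempty_empty hne
  obtain ⟨x, ⟨a, ha1, ha2, _⟩, ⟨⟨b1, hb1⟩, ⟨b2, hb2⟩⟩⟩ := hne
  have c1 := align hq hr ha1 hb1
  have c2 := align hq hr ha2 hb2
  have hle : red q r * ψ r + red r q * ψ q < 2 * δ := by
    have h1 : red q r * ψ r ≤ DD ψ q r := le_max_left _ _
    have h2 : red r q * ψ q ≤ DD ψ q r := le_max_right _ _
    linarith
  unfold Par at hnot
  push Not at hnot
  obtain ⟨d, d', k, k', hB, hB', hneq⟩ := hnot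
  by_cases hk : k.1 * d' = k'.1 * d
  · right
    exact ⟨j, hj1, hj2, ⟨d, d', k.2, k'.2, hB.1, hB.2.1.le, hB'.1, hB'.2.1.le, hB.2.2.2, hB'.2.2.2,
      hneq hk⟩, _, c2.trans hle⟩
  · left
    exact ⟨j, hj1, hj2, ⟨d, d', k.1, k'.1, hB.1, hB.2.1.le, hB'.1, hB'.2.1.le, hB.2.2.1, hB'.2.2.1,
      hk⟩, _, c1.trans hle⟩

end Q271.IK
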