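import Pool.Agent.Q271.IK.Count

/-!
# The sums over pairs

For a pair `r < q` the numbers `red q r = q / gcd (q, r)` and `red r q = r / gcd (q, r)` are the
reduced parts. All the sums over pairs which are needed for the second moment are bounded here by a
constant times the sum of `ψ q ^ 2`.
-/

set_option autoImplicit false

namespace Q271.IK

open Finset

/-- The reduced part `a / gcd (a, b)` of `a`. -/
def red (a b : ℕ) : ℕ := a / Nat.gcd a b

theorem red_mul (a b : ℕ) : red a b * Nat.gcd a b = a := Nat.div_mul_cancel (Nat.gcd_dvd_left a b)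

theorem red_mul' (a b : ℕ) : red b a * Nat.gcd a b = b := by
  rw [Nat.gcd_comm]; exact red_mul b a

theorem red_pos {a b : ℕ} (ha : 0 < a) : 0 < red a b :=
  Nat.div_pos (Nat.gcd_le_left b ha) (Nat.gcd_pos_of_pos_left b ha)

theorem red_coprime {a b : ℕ} (ha : 0 < a) : Nat.Coprime (red a b) (red b a) := by
  have h := Nat.coprime_div_gcd_div_gcd (Nat.gcd_pos_of_pos_left b ha)
  unfold red
  rwa [Nat.gcd_comm b a]

theorem red_lt {a b : ℕ} (h : a < b) : red a b < red b a := by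
  have h1 := red_mul a b
  have h2 := red_mul' a b
  by_contra hcon
  push Not at hcon
  have := Nat.mul_le_mul_right (Nat.gcd a b) hcon
  omega

theorem red_le (a b : ℕ) : red a b ≤ a := Nat.div_le_self _ _

theorem red_dvd (a b : ℕ) : red a b ∣ a := ⟨Nat.gcd a b, (red_mul a b).symm⟩

theorem red_cross (q r : ℕ) : q * red r q = r * red q r := by
  have h1 := red_mul q r
  have h2 := red_mul' q r
  calc q * red r q = (red q r * Nat.gcd q r) * red r q := by rw [h1]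
    _ = (red r q * Nat.gcd q r) * red q r := by ring
    _ = r * red q r := by rw [h2]

theorem pair_inj {q r₁ r₂ : ℕ} (hq : 0 < q) (h1 : red q r₁ = red q r₂)
    (h2 : red r₁ q = red r₂ q) : r₁ = r₂ := by
  have a1 := red_mul q r₁
  have a2 := red_mul q r₂
  have b1 := red_mul' q r₁
  have b2 := red_mul' q r₂
  have hp : 0 < red q r₁ := red_pos hq
  have hg : Nat.gcd q r₁ = Nat.gcd q r₂ := by
    apply Nat.eq_of_mul_eq_mul_left hp
    rw [a1, h1, a2]
  rw [← b1, ← b2, h2, hg]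

/-- `D (q, r)`. -/
noncomputable def DD (ψ : ℕ → ℝ) (q r : ℕ) : ℝ := max (red q r * ψ r) (red r q * ψ q)

/-- `m (q, r)`. -/
noncomputable def mm (ψ : ℕ → ℝ) (q r : ℕ) : ℝ := min (ψ q / red q r) (ψ r / red r q)

theorem mm_mul_DD (ψ : ℕ → ℝ) {q r : ℕ} (hq : 0 < q) (hr : 0 < r) :
    mm ψ q r * DD ψ q r = ψ q * ψ r := by
  have h1 : (0 : ℝ) < red q r := by exact_mod_cast red_pos hq
  have h2 : (0 : ℝ) < red r q := by exact_mod_cast red_pos hr
  unfold mm DD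
  rcases le_total ((red q r : ℝ) * ψ r) (red r q * ψ q) with h | h
  · rw [max_eq_right h]
    have : ψ r / red r q ≤ ψ q / red q r := by
      rw [div_le_div_iff₀ h2 h1]; linarith
    rw [min_eq_right this]; field_simp
  · rw [max_eq_left h]
    have : ψ q / red q r ≤ ψ r / red r q := by
      rw [div_le_div_iff₀ h1 h2]; linarith
    rw [min_eq_left this]; field_simp

theorem mm_nonneg (ψ : ℕ → ℝ) (h0 : ∀ n, 0 ≤ ψ n) (q r : ℕ) : 0 ≤ mm ψ q r :=
  le_min (div_nonneg (h0 q) (Nat.cast_nonneg _)) (div_nonneg (h0 r) (Nat.cast_nonneg _))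

theorem sum_le_of_inj {ι κ : Type} (s : Finset ι) (t : Finset κ) (φ : ι → κ)
    (f : ι → ℝ) (g : κ → ℝ) (hφ : ∀ x ∈ s, φ x ∈ t) (hinj : Set.InjOn φ s)
    (hf : ∀ x ∈ s, f x ≤ g (φ x)) (hg : ∀ k ∈ t, 0 ≤ g k) : ∑ x ∈ s, f x ≤ ∑ k ∈ t, g k := by
  classical
  calc ∑ x ∈ s, f x ≤ ∑ x ∈ s, g (φ x) := Finset.sum_le_sum hf
    _ = ∑ k ∈ s.image φ, g k := (Finset.sum_image fun x hx y hy h => hinj hx hy h).symm
    _ ≤ ∑ k ∈ t, g k := Finset.sum_le_sum_of_subset_of_nonneg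
        (by intro k hk
            obtain ⟨x, hx, rfl⟩ := Finset.mem_image.1 hk
            exact hφ x hx)
        (fun k hk _ => hg k hk)

theorem sum_inv_sq_le (s : Finset ℕ) (Z : ℝ) (hZ : 0 < Z) (hs : ∀ n ∈ s, Z ≤ n) :
    ∑ n ∈ s, 1 / (n : ℝ) ^ 2 ≤ 2 / Z := by
  set k := ⌈Z⌉₊ - 1 with hk
  have hc : 0 < ⌈Z⌉₊ := Nat.ceil_pos.2 hZ
  have hk1 : (k : ℝ) + 1 = ⌈Z⌉₊ := by
    have : k + 1 = ⌈Z⌉₊ := by omega
    exact_mod_cast this
  have hsub : s ⊆ Finset.Ioo k (s.sup id + 1) := by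
    intro n hn
    rw [Finset.mem_Ioo]
    constructor
    · have := Nat.ceil_le.2 (hs n hn)
      omega
    · exact Nat.lt_succ_of_le (Finset.le_sup (f := id) hn)
  calc ∑ n ∈ s, 1 / (n : ℝ) ^ 2 ≤ ∑ n ∈ Finset.Ioo k (s.sup id + 1), 1 / (n : ℝ) ^ 2 :=
        Finset.sum_le_sum_of_subset_of_nonneg hsub (fun _ _ _ => by positivity)
    _ = ∑ n ∈ Finset.Ioo k (s.sup id + 1), ((n : ℝ) ^ 2)⁻¹ := by simp [one_div]
    _ ≤ 2 / ((k : ℝ) + 1) := sum_Ioo_inv_sq_le k _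
    _ ≤ 2 / Z := by
        apply div_le_div_of_nonneg_left (by norm_num) hZ
        rw [hk1]; exact Nat.le_ceil Z

theorem card_le_of_bdd (s : Finset ℕ) (X : ℝ) (hX : 0 ≤ X) (h1 : ∀ n ∈ s, 1 ≤ n)
    (hs : ∀ n ∈ s, (n : ℝ) ≤ X) : (s.card : ℝ) ≤ X := by
  have hsub : s ⊆ Finset.Icc 1 ⌊X⌋₊ := by
    intro n hn
    rw [Finset.mem_Icc]
    exact ⟨h1 n hn, Nat.le_floor (hs n hn)⟩
  have := Finset.card_le_card hsub
  rw [Nat.card_Icc] at this
  have h2 : s.card ≤ ⌊X⌋₊ := by omega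
  calc (s.card : ℝ) ≤ (⌊X⌋₊ : ℝ) := by exact_mod_cast h2
    _ ≤ X := Nat.floor_le hX

theorem sum_min_sq_le (s : Finset ℕ) (p K : ℝ) (hp : 0 < p) (hK : 0 < K) (h1 : ∀ n ∈ s, 1 ≤ n) :
    ∑ n ∈ s, (min p (K / n)) ^ 2 ≤ 3 * K * p := by
  classical
  rw [← Finset.sum_filter_add_sum_filter_not s (fun n : ℕ => (n : ℝ) ≤ K / p)]
  have hX : 0 < K / p := by positivity
  have a1 : ∑ n ∈ s.filter (fun n : ℕ => (n : ℝ) ≤ K / p), (min p (K / n)) ^ 2 ≤ K * p := by
    calc _ ≤ ∑ n ∈ s.filter (fun n : ℕ => (n : ℝ) ≤ K / p), p ^ 2 := by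
          apply Finset.sum_le_sum
          intro n hn
          have hm : 0 ≤ min p (K / n) := le_min hp.le (by positivity)
          exact pow_le_pow_left₀ hm (min_le_left _ _) 2
      _ = ((s.filter (fun n : ℕ => (n : ℝ) ≤ K / p)).card : ℝ) * p ^ 2 := by simp
      _ ≤ K / p * p ^ 2 := by
          apply mul_le_mul_of_nonneg_right _ (by positivity)
          apply card_le_of_bdd _ _ hX.le
          · intro n hn; exact h1 n (Finset.mem_filter.1 hn).1
          · intro n hn; exact (Finset.mem_filter.1 hn).2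
      _ = K * p := by field_simp
  have a2 : ∑ n ∈ s.filter (fun n : ℕ => ¬ (n : ℝ) ≤ K / p), (min p (K / n)) ^ 2 ≤ 2 * K * p := by
    calc _ ≤ ∑ n ∈ s.filter (fun n : ℕ => ¬ (n : ℝ) ≤ K / p), K ^ 2 * (1 / (n : ℝ) ^ 2) := by
          apply Finset.sum_le_sum
          intro n hn
          have hm : 0 ≤ min p (K / n) := le_min hp.le (by positivity)
          refine (pow_le_pow_left₀ hm (min_le_right _ _) 2).trans (le_of_eq ?_)
          ring
      _ = K ^ 2 * ∑ n ∈ s.filter (fun n : ℕ => ¬ (n : ℝ) ≤ K / p), 1 / (n : ℝ) ^ 2 := by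
          rw [Finset.mul_sum]
      _ ≤ K ^ 2 * (2 / (K / p)) := by
          apply mul_le_mul_of_nonneg_left _ (by positivity)
          apply sum_inv_sq_le _ _ hX
          intro n hn
          exact (not_le.1 (Finset.mem_filter.1 hn).2).le
      _ = 2 * K * p := by field_simp
  linarith

/-- Case 1 of the middle range. -/
theorem sumB1 (ψ : ℕ → ℝ) (h0 : ∀ n, 0 ≤ ψ n) (K : ℝ) (hK : 0 < K) (r : ℕ) (hr : 0 < r)
    (hψr : 0 < ψ r) (Q : Finset ℕ)
    (hQ : ∀ q ∈ Q, r < q ∧ ψ q ≤ ψ r ∧ red q r * ψ r < K) :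
    ∑ q ∈ Q, ψ q ^ 2 * ψ r ^ 2 ≤ K ^ 2 * ψ r ^ 2 := by
  set X := K / ψ r with hX
  have hX0 : 0 < X := by positivity
  have h := sum_le_of_inj Q (Finset.Icc 1 ⌊X⌋₊ ×ˢ Finset.Icc 1 ⌊X⌋₊) (fun q => (red q r, red r q))
    (fun q => ψ q ^ 2 * ψ r ^ 2) (fun _ => ψ r ^ 2 * ψ r ^ 2) ?_ ?_ ?_ ?_
  · refine h.trans ?_
    rw [Finset.sum_const, Finset.card_product, Nat.card_Icc, nsmul_eq_mul]
    simp only [Nat.add_sub_cancel]
    have hf : (⌊X⌋₊ : ℝ) ≤ X := Nat.floor_le hX0.le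
    have hf2 : ((⌊X⌋₊ * ⌊X⌋₊ : ℕ) : ℝ) ≤ X * X := by
      push_cast
      exact mul_le_mul hf hf (by positivity) hX0.le
    calc ((⌊X⌋₊ * ⌊X⌋₊ : ℕ) : ℝ) * (ψ r ^ 2 * ψ r ^ 2) ≤ X * X * (ψ r ^ 2 * ψ r ^ 2) :=
          mul_le_mul_of_nonneg_right hf2 (by positivity)
      _ = K ^ 2 * ψ r ^ 2 := by rw [hX]; field_simp
  · intro q hq
    obtain ⟨h1, h2, h3⟩ := hQ q hq
    have hlt : (red q r : ℝ) < X := by rw [hX, lt_div_iff₀ hψr]; exact h3
    have hfl : red q r ≤ ⌊X⌋₊ := Nat.le_floor hlt.le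
    simp only [Finset.mem_product, Finset.mem_Icc]
    exact ⟨⟨red_pos (by omega), hfl⟩, ⟨red_pos hr, (red_lt h1).le.trans hfl⟩⟩
  · intro q₁ hq₁ q₂ hq₂ he
    simp only [Prod.mk.injEq] at he
    exact pair_inj hr he.2 he.1
  · intro q hq
    obtain ⟨h1, h2, h3⟩ := hQ q hq
    exact mul_le_mul_of_nonneg_right (pow_le_pow_left₀ (h0 q) h2 2) (by positivity)
  · intro k _; positivity

/-- Case 2 of the middle range. -/
theorem sumB2 (ψ : ℕ → ℝ) (h0 : ∀ n, 0 ≤ ψ n) (K : ℝ) (hK : 0 < K) (q : ℕ) (hq : 0 < q)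
    (hψq : 0 < ψ q) (R : Finset ℕ)
    (hR : ∀ r ∈ R, 0 < r ∧ ψ r ≤ ψ q ∧ red q r * ψ r < K ∧ red r q * ψ q < K) :
    ∑ r ∈ R, ψ q ^ 2 * ψ r ^ 2 ≤ 3 * K ^ 2 * ψ q ^ 2 := by
  set X := K / ψ q with hX
  have hX0 : 0 < X := by positivity
  have h := sum_le_of_inj R (Finset.Icc 1 ⌊X⌋₊ ×ˢ Finset.Icc 1 q) (fun r => (red r q, red q r))
    (fun r => ψ r ^ 2) (fun x => (min (ψ q) (K / x.2)) ^ 2) ?_ ?_ ?_ ?_
  · rw [← Finset.mul_sum]
    rw [Finset.sum_product] at h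
    have h2 : ∑ x ∈ Finset.Icc 1 ⌊X⌋₊, ∑ n ∈ Finset.Icc 1 q, (min (ψ q) (K / (n : ℝ))) ^ 2 ≤
        X * (3 * K * ψ q) := by
      rw [Finset.sum_const, Nat.card_Icc, nsmul_eq_mul]
      simp only [Nat.add_sub_cancel]
      apply mul_le_mul (Nat.floor_le hX0.le) _ _ hX0.le
      · apply sum_min_sq_le _ _ _ hψq hK
        intro n hn; exact (Finset.mem_Icc.1 hn).1
      · exact Finset.sum_nonneg fun _ _ => by positivity
    have h3 : ∑ r ∈ R, ψ r ^ 2 ≤ X * (3 * K * ψ q) := h.trans h2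
    calc ψ q ^ 2 * ∑ r ∈ R, ψ r ^ 2 ≤ ψ q ^ 2 * (X * (3 * K * ψ q)) :=
          mul_le_mul_of_nonneg_left h3 (by positivity)
      _ = 3 * K ^ 2 * ψ q ^ 2 := by rw [hX]; field_simp
  · intro r hr
    obtain ⟨h1, h2, h3, h4⟩ := hR r hr
    have hlt : (red r q : ℝ) < X := by rw [hX, lt_div_iff₀ hψq]; exact h4
    simp only [Finset.mem_product, Finset.mem_Icc]
    exact ⟨⟨red_pos h1, Nat.le_floor hlt.le⟩, ⟨red_pos hq, red_le q r⟩⟩
  · intro r₁ hr₁ r₂ hr₂ he
    simp only [Prod.mk.injEq] at he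
    exact pair_inj hq he.2 he.1
  · intro r hr
    obtain ⟨h1, h2, h3, h4⟩ := hR r hr
    have hpos : (0 : ℝ) < red q r := by exact_mod_cast red_pos hq
    apply pow_le_pow_left₀ (h0 r)
    apply le_min h2
    rw [le_div_iff₀ hpos]
    linarith
  · intro k _; positivity

/-- Two vectors near the line which are not proportional. -/
def rich (y δ : ℝ) (n : ℕ) : Prop :=
  ∃ (d₁ d₂ : ℕ) (k₁ k₂ : ℤ), 1 ≤ d₁ ∧ d₁ ≤ n ∧ 1 ≤ d₂ ∧ d₂ ≤ n ∧ |(d₁ : ℝ) * y - k₁| < 2 * δ ∧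
    |(d₂ : ℝ) * y - k₂| < 2 * δ ∧ k₁ * d₂ ≠ k₂ * d₁

theorem rich_card {y δ : ℝ} {n N : ℕ} (hδ : 0 < δ) (hδ1 : δ ≤ 1 / 4) (h : rich y δ n)
    (hnN : n ≤ N) : ((near y (2 * δ) N).card : ℝ) ≤ 24 * δ * N := by
  obtain ⟨d₁, d₂, k₁, k₂, a1, a2, a3, a4, a5, a6, a7⟩ := h
  have := card_near_le y (2 * δ) (by linarith) (by linarith) N d₁ d₂ k₁ k₂ a1 (a2.trans hnN) a3
    (a4.trans hnN) a5 a6 a7
  linarith

/-- The condition on a pair in the small range. -/
def G (y δ : ℝ) (q r : ℕ) : Prop :=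
  rich y δ (red q r) ∧ ∃ k : ℤ, |((red q r : ℝ) - red r q) * y - k| < 2 * δ

theorem G_mem {y δ : ℝ} {q r N : ℕ} (hr : 0 < r) (hrq : r < q) (h : G y δ q r)
    (hN : red q r ≤ N) : red q r - red r q ∈ near y (2 * δ) N := by
  obtain ⟨_, k, hk⟩ := h
  have hlt := red_lt hrq
  have hp : 0 < red r q := red_pos hr
  rw [mem_near]
  refine ⟨⟨by omega, by omega⟩, k, ?_⟩
  rw [Nat.cast_sub hlt.le]
  exact hk

/-- Case 1 of the small range. -/
theorem sumC1 (ψ : ℕ → ℝ) (h0 : ∀ n, 0 ≤ ψ n) (y δ : ℝ) (hδ : 0 < δ) (hδ1 : δ ≤ 1 / 4)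
    (r : ℕ) (hr : 0 < r) (hψr : 0 < ψ r) (Q : Finset ℕ)
    (hQ : ∀ q ∈ Q, r < q ∧ ψ q ≤ ψ r ∧ δ / 4 ≤ red q r * ψ r ∧ red q r * ψ r < δ ∧ G y δ q r) :
    ∑ q ∈ Q, mm ψ q r ^ 2 ≤ 384 * δ * ψ r ^ 2 := by
  rcases Q.eq_empty_or_nonempty with hQe | ⟨q₀, hq₀⟩
  · rw [hQe, Finset.sum_empty]; positivity
  set X := δ / ψ r with hX
  have hX0 : 0 < X := by positivity
  have hle : ∀ q ∈ Q, red q r ≤ ⌊X⌋₊ := by
    intro q hq
    obtain ⟨h1, h2, h3, h4, h5⟩ := hQ q hq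
    have hlt : (red q r : ℝ) < X := by rw [hX, lt_div_iff₀ hψr]; exact h4
    exact Nat.le_floor hlt.le
  have hcard := rich_card hδ hδ1 (hQ q₀ hq₀).2.2.2.2.1 (hle q₀ hq₀)
  have hfl : (⌊X⌋₊ : ℝ) ≤ X := Nat.floor_le hX0.le
  have h := sum_le_of_inj Q (Finset.Icc 1 ⌊X⌋₊ ×ˢ near y (2 * δ) ⌊X⌋₊)
    (fun q => (red q r, red q r - red r q))
    (fun q => mm ψ q r ^ 2) (fun _ => (4 * ψ r / X) ^ 2) ?_ ?_ ?_ ?_
  · refine h.trans ?_
    rw [Finset.sum_const, Finset.card_product, Nat.card_Icc, nsmul_eq_mul]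
    simp only [Nat.add_sub_cancel]
    push_cast
    calc (⌊X⌋₊ : ℝ) * ((near y (2 * δ) ⌊X⌋₊).card : ℝ) * (4 * ψ r / X) ^ 2 ≤
          X * (24 * δ * X) * (4 * ψ r / X) ^ 2 := by
          apply mul_le_mul_of_nonneg_right _ (by positivity)
          apply mul_le_mul hfl _ (by positivity) hX0.le
          refine hcard.trans ?_
          apply mul_le_mul_of_nonneg_left hfl (by positivity)
      _ = 384 * δ * ψ r ^ 2 := by field_simp; ring
  · intro q hq
    obtain ⟨h1, h2, h3, h4, h5⟩ := hQ q hq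
    simp only [Finset.mem_product, Finset.mem_Icc]
    exact ⟨⟨red_pos (by omega), hle q hq⟩, G_mem hr h1 h5 (hle q hq)⟩
  · intro q₁ hq₁ q₂ hq₂ he
    simp only [Prod.mk.injEq] at he
    have b1 := red_lt (hQ q₁ hq₁).1
    have b2 := red_lt (hQ q₂ hq₂).1
    exact pair_inj hr (by omega) he.1
  · intro q hq
    obtain ⟨h1, h2, h3, h4, h5⟩ := hQ q hq
    have hpos : (0 : ℝ) < red q r := by exact_mod_cast red_pos (by omega : 0 < q)
    apply pow_le_pow_left₀ (mm_nonneg ψ h0 q r)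
    refine (min_le_left _ _).trans ?_
    rw [div_le_div_iff₀ hpos hX0]
    have hXq : X ≤ 4 * red q r := by
      rw [hX, div_le_iff₀ hψr]; linarith
    calc ψ q * X ≤ ψ r * X := mul_le_mul_of_nonneg_right h2 hX0.le
      _ ≤ ψ r * (4 * red q r) := mul_le_mul_of_nonneg_left hXq hψr.le
      _ = 4 * ψ r * red q r := by ring
  · intro k _; positivity

/-- Case 2 of the small range. -/
theorem sumC2 (ψ : ℕ → ℝ) (h0 : ∀ n, 0 ≤ ψ n) (y σ : ℝ) (hσ : 0 < σ) (hσ1 : σ ^ 2 ≤ 1 / 4)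
    (q : ℕ) (hq : 0 < q) (hψq : 0 < ψ q) (R : Finset ℕ)
    (hR : ∀ r ∈ R, 0 < r ∧ r < q ∧ ψ r ≤ ψ q ∧ σ ^ 2 / 4 ≤ DD ψ q r ∧ DD ψ q r < σ ^ 2 ∧
      G y (σ ^ 2) q r) :
    ∑ r ∈ R, mm ψ q r ^ 2 ≤ 98 * σ * ψ q ^ 2 := by
  classical
  set δ := σ ^ 2 with hδd
  have hδ : 0 < δ := by positivity
  set X := δ / ψ q with hX
  have hX0 : 0 < X := by positivity
  -- the range of `red q r`
  have hlow : ∀ r ∈ R, X / 4 ≤ red q r := by
    intro r hr
    obtain ⟨h1, h2, h3, h4, h5, h6⟩ := hR r hr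
    have hlt : (red r q : ℝ) < red q r := by exact_mod_cast red_lt h2
    have hD : DD ψ q r ≤ red q r * ψ q := by
      unfold DD
      apply max_le
      · exact mul_le_mul_of_nonneg_left h3 (by positivity)
      · exact mul_le_mul_of_nonneg_right hlt.le hψq.le
    have : X ≤ 4 * red q r := by
      rw [hX, div_le_iff₀ hψq]; linarith
    linarith
  -- number of `r` with given `n = red q r`
  have hfib : ∀ n : ℕ, ((R.filter fun r => red q r = n).card : ℝ) ≤ min X (24 * δ * n) := by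
    intro n
    rcases (R.filter fun r => red q r = n).eq_empty_or_nonempty with he | ⟨r₀, hr₀⟩
    · rw [he, Finset.card_empty, Nat.cast_zero]; positivity
    rw [Finset.mem_filter] at hr₀
    apply le_min
    · have hc : (R.filter fun r => red q r = n).card =
          ((R.filter fun r => red q r = n).image fun r => red r q).card := by
        rw [Finset.card_image_of_injOn]
        intro r₁ hr₁ r₂ hr₂ he
        rw [Finset.mem_coe, Finset.mem_filter] at hr₁ hr₂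
        exact pair_inj hq (by rw [hr₁.2, hr₂.2]) he
      rw [hc]
      apply card_le_of_bdd _ _ hX0.le
      · intro m hm
        obtain ⟨r, hr, rfl⟩ := Finset.mem_image.1 hm
        rw [Finset.mem_filter] at hr
        exact red_pos (hR r hr.1).1
      · intro m hm
        obtain ⟨r, hr, rfl⟩ := Finset.mem_image.1 hm
        rw [Finset.mem_filter] at hr
        obtain ⟨h1, h2, h3, h4, h5, h6⟩ := hR r hr.1
        rw [hX, le_div_iff₀ hψq]
        exact ((le_max_right _ _).trans_lt h5).le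
    · obtain ⟨h1, h2, h3, h4, h5, h6⟩ := hR r₀ hr₀.1
      have hcard := rich_card hδ hσ1 h6.1 hr₀.2.le
      refine le_trans ?_ hcard
      have : (R.filter fun r => red q r = n).card ≤ (near y (2 * δ) n).card := by
        apply Finset.card_le_card_of_injOn (fun r => red q r - red r q)
        · intro r hr
          rw [Finset.mem_coe, Finset.mem_filter] at hr
          obtain ⟨g1, g2, g3, g4, g5, g6⟩ := hR r hr.1
          exact G_mem g1 g2 g6 hr.2.le
        · intro r₁ hr₁ r₂ hr₂ he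
          rw [Finset.mem_coe, Finset.mem_filter] at hr₁ hr₂
          have b1 := red_lt (hR r₁ hr₁.1).2.1
          have b2 := red_lt (hR r₂ hr₂.1).2.1
          simp only at he
          have e1 : red q r₁ = red q r₂ := by rw [hr₁.2, hr₂.2]
          exact pair_inj hq e1 (by omega)
      exact_mod_cast this
  -- the sum over the fibres
  set T := R.image fun r => red q r with hT
  have hTpos : ∀ n ∈ T, X / 4 ≤ (n : ℝ) := by
    intro n hn
    obtain ⟨r, hr, rfl⟩ := Finset.mem_image.1 hn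
    exact hlow r hr
  have hT0 : ∀ n ∈ T, (0 : ℝ) < n := fun n hn => lt_of_lt_of_le (by positivity) (hTpos n hn)
  have hsum : ∑ r ∈ R, mm ψ q r ^ 2 ≤ ∑ n ∈ T, min X (24 * δ * n) * (ψ q / n) ^ 2 := by
    rw [← Finset.sum_fiberwise_of_maps_to (s := R) (t := T) (g := fun r => red q r)
      (fun r hr => Finset.mem_image_of_mem _ hr)]
    apply Finset.sum_le_sum
    intro n hn
    calc ∑ r ∈ R.filter (fun r => red q r = n), mm ψ q r ^ 2 ≤
          ∑ r ∈ R.filter (fun r => red q r = n), (ψ q / n) ^ 2 := by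
          apply Finset.sum_le_sum
          intro r hr
          rw [Finset.mem_filter] at hr
          apply pow_le_pow_left₀ (mm_nonneg ψ h0 q r)
          rw [← hr.2]
          exact min_le_left _ _
      _ = ((R.filter fun r => red q r = n).card : ℝ) * (ψ q / n) ^ 2 := by
          rw [Finset.sum_const, nsmul_eq_mul]
      _ ≤ _ := mul_le_mul_of_nonneg_right (hfib n) (by positivity)
  refine hsum.trans ?_
  rw [← Finset.sum_filter_add_sum_filter_not T (fun n : ℕ => (n : ℝ) ≤ X / σ)]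
  have hXσ : 0 < X / σ := by positivity
  have a1 : ∑ n ∈ T.filter (fun n : ℕ => (n : ℝ) ≤ X / σ), min X (24 * δ * n) * (ψ q / n) ^ 2 ≤
      96 * σ * ψ q ^ 2 := by
    calc _ ≤ ∑ n ∈ T.filter (fun n : ℕ => (n : ℝ) ≤ X / σ), 96 * δ * ψ q ^ 2 / X := by
          apply Finset.sum_le_sum
          intro n hn
          rw [Finset.mem_filter] at hn
          have hn0 := hT0 n hn.1
          have hn4 := hTpos n hn.1
          calc min X (24 * δ * n) * (ψ q / n) ^ 2 ≤ (24 * δ * n) * (ψ q / n) ^ 2 :=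
                mul_le_mul_of_nonneg_right (min_le_right _ _) (by positivity)
            _ = 24 * δ * ψ q ^ 2 / n := by field_simp
            _ ≤ 24 * δ * ψ q ^ 2 / (X / 4) :=
                div_le_div_of_nonneg_left (by positivity) (by positivity) hn4
            _ = 96 * δ * ψ q ^ 2 / X := by field_simp; norm_num
      _ = ((T.filter (fun n : ℕ => (n : ℝ) ≤ X / σ)).card : ℝ) * (96 * δ * ψ q ^ 2 / X) := by
          rw [Finset.sum_const, nsmul_eq_mul]
      _ ≤ X / σ * (96 * δ * ψ q ^ 2 / X) := by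
          apply mul_le_mul_of_nonneg_right _ (by positivity)
          apply card_le_of_bdd _ _ hXσ.le
          · intro n hn
            rw [Finset.mem_filter] at hn
            have := hT0 n hn.1
            exact_mod_cast this
          · intro n hn
            rw [Finset.mem_filter] at hn
            exact hn.2
      _ = 96 * σ * ψ q ^ 2 := by rw [hδd]; field_simp
  have a2 : ∑ n ∈ T.filter (fun n : ℕ => ¬ (n : ℝ) ≤ X / σ), min X (24 * δ * n) * (ψ q / n) ^ 2 ≤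
      2 * σ * ψ q ^ 2 := by
    calc _ ≤ ∑ n ∈ T.filter (fun n : ℕ => ¬ (n : ℝ) ≤ X / σ), X * ψ q ^ 2 * (1 / (n : ℝ) ^ 2) := by
          apply Finset.sum_le_sum
          intro n hn
          calc min X (24 * δ * n) * (ψ q / n) ^ 2 ≤ X * (ψ q / n) ^ 2 :=
                mul_le_mul_of_nonneg_right (min_le_left _ _) (by positivity)
            _ = X * ψ q ^ 2 * (1 / (n : ℝ) ^ 2) := by ring
      _ = X * ψ q ^ 2 * ∑ n ∈ T.filter (fun n : ℕ => ¬ (n : ℝ) ≤ X / σ), 1 / (n : ℝ) ^ 2 := by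
          rw [Finset.mul_sum]
      _ ≤ X * ψ q ^ 2 * (2 / (X / σ)) := by
          apply mul_le_mul_of_nonneg_left _ (by positivity)
          apply sum_inv_sq_le _ _ hXσ
          intro n hn
          exact (not_le.1 (Finset.mem_filter.1 hn).2).le
      _ = 2 * σ * ψ q ^ 2 := by field_simp
  linarith

end Q271.IK
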